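import Mathlib

set_option autoImplicit false

/-! # Forms, polynomial functions of forms, the discriminant -/

namespace Pool.Agent.K1H4.Disc

open MvPolynomial

/-- Exponent vectors of total degree `k` in `n` variables. -/
abbrev Exps (n k : ℕ) : Type := {α : Fin n →₀ ℕ // α.degree = k}

noncomputable instance (n k : ℕ) : Fintype (Exps n k) :=
  (Finsupp.finite_of_degree_eq (σ := Fin n) k).fintype

noncomputable instance (n k : ℕ) : DecidableEq (Exps n k) := Classical.decEq _

/-- Polynomials in the coefficients of a form of degree `d` in `n` variables: the variable with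
index `α` stands for the coefficient of the monomial `z ^ α`. -/
abbrev PolyFun (n d : ℕ) : Type := MvPolynomial (Exps n d) ℂ

/-- The value of a polynomial in the coefficients at the form `f`. -/
noncomputable def value {n d : ℕ} (P : PolyFun n d) (f : MvPolynomial (Fin n) ℂ) : ℂ :=
  eval (fun α : Exps n d => coeff α.1 f) P

/-- The partial derivatives of `f` have no common zero except the origin. -/
def Nondegenerate {n : ℕ} (f : MvPolynomial (Fin n) ℂ) : Prop :=
  ∀ z : Fin n → ℂ, (∀ i, eval z (pderiv i f) = 0) → z = 0

/-- `Δ` is the discriminant of forms of degree `d` in `n` variables: an irreducible polynomial in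
the coefficients that vanishes exactly at the forms that are not nondegenerate. -/
structure IsDiscriminant (n d : ℕ) (Δ : PolyFun n d) : Prop where
  irreducible : Irreducible Δ
  value_eq_zero_iff : ∀ f : MvPolynomial (Fin n) ℂ, f.IsHomogeneous d →
    (value Δ f = 0 ↔ ¬ Nondegenerate f)

/-- The ideal generated by the partial derivatives. -/
noncomputable def jac {n : ℕ} (f : MvPolynomial (Fin n) ℂ) : Ideal (MvPolynomial (Fin n) ℂ) :=
  Ideal.span (Set.range fun i => pderiv i f)

/-- The Hessian determinant. -/
noncomputable def hess {n : ℕ} {B : Type*} [CommRing B] (f : MvPolynomial (Fin n) B) :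
    MvPolynomial (Fin n) B :=
  (Matrix.of fun i j => pderiv i (pderiv j f)).det

end Pool.Agent.K1H4.Disc
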