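import Pool.Agent.K1H4.Disc.Hom

set_option autoImplicit false

/-! # Regular sequences inside the span of forms without common zero -/

namespace Pool.Agent.K1H4.Disc

open MvPolynomial RingTheory.Sequence CategoryTheory Abelian Limits Pointwise IsSMulRegular

/-- the general step: inside a vector space of elements with vanishing Hom, there is a regular
element -/
theorem exists_regular_mem {K R : Type} [Field K] [Infinite K] [CommRing R] [IsNoetherianRing R]
    [Algebra K R] {M N : Type} [AddCommGroup M] [Module R M] [Module.Finite R M]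
    [AddCommGroup N] [Module R N] [Module.Finite R N]
    (V : Submodule K R) (hV : Module.annihilator R N ≤ Ideal.span (V : Set R))
    (h : Subsingleton (N →ₗ[R] M)) : ∃ x ∈ V, IsSMulRegular M x := by
  classical
  obtain ⟨r, hr, hreg⟩ := subsingleton_linearMap_iff.1 h
  by_contra! hcon
  have hfin := associatedPrimes.finite R M
  -- the traces of the associated primes on `V`
  let tr : Ideal R → Submodule K V := fun P =>
    (P.restrictScalars K).comap V.subtype
  have hcov : ⋃ p ∈ hfin.toFinset.image tr, (p : Set V) = Set.univ := by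
    rw [Set.eq_univ_iff_forall]
    intro x
    have h1 : (x : R) ∈ ⋃ p ∈ associatedPrimes R M, (p : Set R) := by
      rw [biUnion_associatedPrimes_eq_compl_regular R M]
      exact hcon x.1 x.2
    rw [Set.mem_iUnion₂] at h1
    obtain ⟨P, hP, hxP⟩ := h1
    rw [Set.mem_iUnion₂]
    exact ⟨tr P, Finset.mem_image_of_mem _ (hfin.mem_toFinset.2 hP), hxP⟩
  have htop := Subspace.top_mem_of_biUnion_eq_univ hcov
  rw [Finset.mem_image] at htop
  obtain ⟨P, hP, hPt⟩ := htop
  have hP' : P ∈ associatedPrimes R M := hfin.mem_toFinset.1 hP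
  have hle : Ideal.span (V : Set R) ≤ P := by
    rw [Ideal.span_le]
    intro x hx
    have : (⟨x, hx⟩ : V) ∈ tr P := by rw [hPt]; trivial
    exact this
  have hrP : r ∈ ⋃ p ∈ associatedPrimes R M, (p : Set R) :=
    Set.mem_iUnion₂.2 ⟨P, hP', hle (hV hr)⟩
  rw [biUnion_associatedPrimes_eq_compl_regular R M] at hrP
  exact hrP hreg

theorem exists_weaklyRegular {K R : Type} [Field K] [Infinite K] [CommRing R]
    [IsNoetherianRing R] [Algebra K R] (N : ModuleCat.{0} R) [Module.Finite R N]
    (V : Submodule K R) (hV : Module.annihilator R N ≤ Ideal.span (V : Set R)) (n : ℕ) :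
    ∀ (M : ModuleCat.{0} R) [Module.Finite R M],
      (∀ i < n, Subsingleton (Ext N M i)) →
      ∃ rs : List R, rs.length = n ∧ (∀ r ∈ rs, r ∈ V) ∧ IsWeaklyRegular M rs := by
  induction n with
  | zero =>
    intro M _ _
    exact ⟨[], rfl, by simp, IsWeaklyRegular.nil _ _⟩
  | succ n ih =>
    intro M _ h_ext
    have h0 : Subsingleton (N ⟶ M) := Ext.addEquiv₀.subsingleton_congr.mp (h_ext 0 n.zero_lt_succ)
    have h1 : Subsingleton (N →ₗ[R] M) := ModuleCat.homAddEquiv.symm.subsingleton
    obtain ⟨x, hxV, hx⟩ := exists_regular_mem V hV h1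
    have h_ext' : ∀ i < n, Subsingleton (Ext N (ModuleCat.of R (QuotSMulTop x M)) i) := by
      intro i hi
      have zero1 := AddCommGrpCat.isZero_of_iff_subsingleton.mpr (h_ext i (by omega))
      have zero2 := AddCommGrpCat.isZero_of_iff_subsingleton.mpr (h_ext (i + 1) (by omega))
      exact AddCommGrpCat.subsingleton_of_isZero <| ShortComplex.Exact.isZero_of_both_zeros
        ((Ext.covariant_sequence_exact₃' N hx.smulShortComplex_shortExact) i (i + 1) rfl)
        (zero1.eq_zero_of_src _) (zero2.eq_zero_of_tgt _)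
    obtain ⟨rs, len, mem, reg⟩ := ih (ModuleCat.of R (QuotSMulTop x M)) h_ext'
    refine ⟨x :: rs, by simp [len], ?_, ?_⟩
    · intro r hr
      rcases List.mem_cons.1 hr with rfl | hr
      · exact hxV
      · exact mem r hr
    · exact IsWeaklyRegular.cons hx reg

section vars

variable {n : ℕ}

theorem set_take_ofFn {A : Type*} (x : Fin n → A) (i : ℕ) :
    {r | r ∈ (List.ofFn x).take i} = x '' {j | (j : ℕ) < i} := by
  ext r
  rw [Set.mem_ofPred_eq, List.mem_take_iff_getElem]
  constructor
  · rintro ⟨j, hj, hr⟩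
    rw [List.length_ofFn, lt_min_iff] at hj
    rw [List.getElem_ofFn] at hr
    exact ⟨⟨j, hj.2⟩, hj.1, hr⟩
  · rintro ⟨j, hj, rfl⟩
    refine ⟨j, ?_, ?_⟩
    · rw [List.length_ofFn]
      exact lt_min hj j.2
    · rw [List.getElem_ofFn]

theorem ofFn_weaklyRegular_iff {R : Type*} [CommRing R] (x : Fin n → R) :
    IsWeaklyRegular R (List.ofFn x) ↔
      ∀ k : Fin n, ∀ y, y * x k ∈ Ideal.span (x '' {j | j < k}) →
        y ∈ Ideal.span (x '' {j | j < k}) := by
  rw [isWeaklyRegular_iff]
  constructor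
  · intro h k y hy
    have h1 := h k (by rw [List.length_ofFn]; exact k.2)
    rw [isSMulRegular_quotient_iff_mem_of_smul_mem] at h1
    have h2 := h1 y
    simp only [smul_eq_mul, Ideal.mul_top, List.getElem_ofFn] at h2
    rw [Ideal.ofList, set_take_ofFn] at h2
    rw [mul_comm] at hy
    exact h2 hy
  · intro h k hk
    rw [List.length_ofFn] at hk
    rw [isSMulRegular_quotient_iff_mem_of_smul_mem]
    intro y hy
    simp only [smul_eq_mul, Ideal.mul_top, List.getElem_ofFn] at hy ⊢
    rw [Ideal.ofList, set_take_ofFn] at hy ⊢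
    rw [mul_comm] at hy
    exact h ⟨k, hk⟩ y hy

theorem X_regular : IsRegular (MvPolynomial (Fin n) ℂ)
    (List.ofFn (X : Fin n → MvPolynomial (Fin n) ℂ)) := by
  refine ⟨(ofFn_weaklyRegular_iff _).2 ?_, ?_⟩
  · intro k y hy
    rw [mem_ideal_span_X_image] at hy ⊢
    intro m hm
    have h1 : m + Finsupp.single k 1 ∈ (y * X k).support := by
      rw [mem_support_iff, coeff_mul_X]
      exact mem_support_iff.1 hm
    obtain ⟨i, hi, hmi⟩ := hy _ h1
    refine ⟨i, hi, ?_⟩
    rw [Finsupp.add_apply, Finsupp.single_apply, if_neg (ne_of_gt hi)] at hmi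
    simpa using hmi
  · intro htop
    have h1 : (1 : MvPolynomial (Fin n) ℂ) ∈ Ideal.ofList (List.ofFn (X : Fin n → MvPolynomial (Fin n) ℂ)) := by
      have := htop ▸ (Submodule.mem_top : (1 : MvPolynomial (Fin n) ℂ) ∈ ⊤)
      simpa using this
    have h2 : {r | r ∈ List.ofFn (X : Fin n → MvPolynomial (Fin n) ℂ)} = X '' Set.univ := by
      ext r
      simp [List.mem_ofFn']
    rw [Ideal.ofList, h2, mem_ideal_span_X_image] at h1
    obtain ⟨i, _, hi⟩ := h1 0 (by simp)
    exact hi rfl

/-- **Regular sequences in the span.** -/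
theorem exists_seq (g : Fin n → MvPolynomial (Fin n) ℂ)
    (h0 : ∀ z : Fin n → ℂ, (∀ i, eval z (g i) = 0) → z = 0) :
    ∃ x : Fin n → MvPolynomial (Fin n) ℂ, (∀ i, x i ∈ Submodule.span ℂ (Set.range g)) ∧
      ∀ k : Fin n, ∀ y, y * x k ∈ Ideal.span (x '' {j | j < k}) →
        y ∈ Ideal.span (x '' {j | j < k}) := by
  let N : ModuleCat.{0} (MvPolynomial (Fin n) ℂ) := ModuleCat.of (MvPolynomial (Fin n) ℂ) (MvPolynomial (Fin n) ℂ ⧸ idl g)
  have hNfin : Module.Finite (MvPolynomial (Fin n) ℂ) N := inferInstanceAs (Module.Finite (MvPolynomial (Fin n) ℂ) (MvPolynomial (Fin n) ℂ ⧸ idl g))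
  let M : ModuleCat.{0} (MvPolynomial (Fin n) ℂ) := ModuleCat.of (MvPolynomial (Fin n) ℂ) (MvPolynomial (Fin n) ℂ)
  have hMfin : Module.Finite (MvPolynomial (Fin n) ℂ) M := inferInstanceAs (Module.Finite (MvPolynomial (Fin n) ℂ) (MvPolynomial (Fin n) ℂ))
  have hann : Module.annihilator (MvPolynomial (Fin n) ℂ) N = idl g := Ideal.annihilator_quotient
  obtain ⟨P, -, hP⟩ := exists_pow_mem g h0 0
  set I : Ideal (MvPolynomial (Fin n) ℂ) := Ideal.ofList (List.ofFn (X : Fin n → MvPolynomial (Fin n) ℂ)) with hI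
  have hsupp : Module.support (MvPolynomial (Fin n) ℂ) N ⊆ PrimeSpectrum.zeroLocus I := by
    rw [Module.support_eq_zeroLocus, hann, PrimeSpectrum.zeroLocus_subset_zeroLocus_iff, hI,
      Ideal.ofList, Ideal.span_le]
    intro r hr
    rw [Set.mem_ofPred_eq, List.mem_ofFn'] at hr
    obtain ⟨i, rfl⟩ := hr
    exact ⟨P, hP i⟩
  have hlt : I • (⊤ : Submodule (MvPolynomial (Fin n) ℂ) M) < ⊤ := by
    have := (X_regular (n := n)).top_ne_smul
    exact lt_top_iff_ne_top.2 (Ne.symm this)
  have hext : ∀ i < n, Subsingleton (Ext N M i) := by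
    have h1 := ModuleCat.subsingleton_ext_of_exists_isRegular I N hsupp M hlt
      (List.ofFn (X : Fin n → MvPolynomial (Fin n) ℂ)) (fun r hr => Ideal.subset_span hr) X_regular
    rwa [List.length_ofFn] at h1
  obtain ⟨rs, hlen, hmem, hreg⟩ := exists_weaklyRegular (K := ℂ) N
    (Submodule.span ℂ (Set.range g)) (by
      rw [hann]
      exact Ideal.span_mono Submodule.subset_span) n M hext
  have hlen' : n = rs.length := hlen.symm
  have hx : rs = List.ofFn (fun i : Fin n => rs[i.1]'(hlen' ▸ i.2)) := by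
    apply List.ext_getElem
    · rw [List.length_ofFn, hlen]
    · intro i h1 h2
      rw [List.getElem_ofFn]
  refine ⟨fun i : Fin n => rs[i.1]'(hlen' ▸ i.2), fun i => hmem _ (List.getElem_mem _), ?_⟩
  rw [hx] at hreg
  exact (ofFn_weaklyRegular_iff _).1 hreg

end vars

end Pool.Agent.K1H4.Disc
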