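import Pool.Agent.K1H4.Disc.Ufd

set_option autoImplicit false

/-! # Existence of the discriminant -/

namespace Pool.Agent.K1H4.Disc

open MvPolynomial Matrix

section sub

variable {n : ℕ} {B : Type*} [CommRing B]

/-- linear substitution -/
noncomputable def lsub (A : Matrix (Fin n) (Fin n) B) :
    MvPolynomial (Fin n) B →ₐ[B] MvPolynomial (Fin n) B :=
  aeval (fun i => ∑ j, C (A i j) * X j)

theorem eval_lsub (A : Matrix (Fin n) (Fin n) B) (f : MvPolynomial (Fin n) B) (w : Fin n → B) :
    eval w (lsub A f) = eval (A *ᵥ w) f := by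
  induction f using MvPolynomial.induction_on with
  | C a => simp [lsub]
  | add p q hp hq => rw [map_add, map_add, hp, hq, map_add]
  | mul_X p i hp =>
    rw [map_mul, map_mul, hp, map_mul, eval_X]
    congr 1
    rw [lsub, aeval_X, map_sum]
    simp [mulVec, dotProduct]

theorem map_lsub {B' : Type*} [CommRing B'] (φ : B →+* B') (A : Matrix (Fin n) (Fin n) B)
    (f : MvPolynomial (Fin n) B) :
    MvPolynomial.map φ (lsub A f) = lsub (A.map φ) (MvPolynomial.map φ f) := by
  induction f using MvPolynomial.induction_on with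
  | C a => simp [lsub]
  | add p q hp hq => rw [map_add, map_add, hp, hq, map_add, map_add]
  | mul_X p i hp =>
    rw [map_mul, map_mul, hp, map_mul, map_mul, map_X]
    congr 1
    rw [lsub, lsub, aeval_X, aeval_X, map_sum]
    simp

theorem pderiv_lsub (A : Matrix (Fin n) (Fin n) B) (f : MvPolynomial (Fin n) B) (j : Fin n) :
    pderiv j (lsub A f) = ∑ i, C (A i j) * lsub A (pderiv i f) := by
  induction f using MvPolynomial.induction_on with
  | C a => simp [lsub]
  | add p q hp hq =>
    rw [map_add, map_add, hp, hq, ← Finset.sum_add_distrib]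
    exact Finset.sum_congr rfl fun i _ => by rw [map_add, map_add]; ring
  | mul_X p k hp =>
    have h1 : lsub A (X k) = ∑ j, C (A k j) * X j := by rw [lsub, aeval_X]
    have h2 : pderiv j (lsub A (X k)) = C (A k j) := by
      rw [h1, map_sum, Finset.sum_eq_single j]
      · rw [pderiv_C_mul, pderiv_X_self, mul_one]
      · intro i _ hi
        rw [pderiv_C_mul, pderiv_X_of_ne hi, mul_zero]
      · intro h; exact absurd (Finset.mem_univ _) h
    rw [map_mul, pderiv_mul, h2, hp, Finset.sum_mul]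
    have h3 : ∀ i, C (A i j) * lsub A (pderiv i (p * X k)) =
        C (A i j) * lsub A (pderiv i p) * lsub A (X k) +
          (if i = k then lsub A p * C (A k j) else 0) := by
      intro i
      rw [pderiv_mul, map_add, map_mul, map_mul]
      by_cases hi : i = k
      · subst hi
        rw [pderiv_X_self, map_one, if_pos rfl]
        ring
      · rw [pderiv_X_of_ne (Ne.symm hi), map_zero, if_neg hi]
        ring
    rw [Finset.sum_congr rfl fun i _ => h3 i, Finset.sum_add_distrib]
    simp

theorem lsub_isHomogeneous {d : ℕ} (A : Matrix (Fin n) (Fin n) B) {f : MvPolynomial (Fin n) B}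
    (hf : f.IsHomogeneous d) : (lsub A f).IsHomogeneous d := by
  have h := hf.aeval (fun i => ∑ j, C (A i j) * X j) (n := 1) fun i =>
    IsHomogeneous.sum _ _ _ fun j _ => by
      have := (isHomogeneous_C (Fin n) (A i j)).mul (isHomogeneous_X B j)
      rwa [zero_add] at this
  rwa [one_mul] at h

/-- forms that are singular at a coordinate point -/
noncomputable def sing {d : ℕ} (i₀ : Fin n) (y : Exps n d → B) : MvPolynomial (Fin n) B :=
  ∑ β : Exps n d, monomial β.1 (if β.1 i₀ < d - 1 then y β else 0)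

theorem sing_isHomogeneous {d : ℕ} (i₀ : Fin n) (y : Exps n d → B) :
    (sing i₀ y).IsHomogeneous d :=
  IsHomogeneous.sum _ _ _ fun β _ => isHomogeneous_monomial _ β.2

theorem map_sing {B' : Type*} [CommRing B'] (φ : B →+* B') {d : ℕ} (i₀ : Fin n)
    (y : Exps n d → B) : MvPolynomial.map φ (sing i₀ y) = sing i₀ (fun β => φ (y β)) := by
  rw [sing, sing, map_sum]
  refine Finset.sum_congr rfl fun β _ => ?_
  rw [map_monomial]
  congr 1
  split_ifs
  · rfl
  · exact map_zero φ

theorem eval_pderiv_sing {d : ℕ} (hd : 2 ≤ d) (i₀ : Fin n) (y : Exps n d → B) (i : Fin n) (c : B) :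
    eval (Pi.single i₀ c) (pderiv i (sing i₀ y)) = 0 := by
  rw [sing, map_sum, map_sum]
  refine Finset.sum_eq_zero fun β _ => ?_
  rw [pderiv_monomial, eval_monomial]
  split_ifs with h
  · by_cases hi : β.1 i = 0
    · rw [hi]; simp
    · have h1 : Finsupp.single i 1 ≤ β.1 := by
        rw [Finsupp.single_le_iff]; omega
      have h2 : (β.1 - Finsupp.single i 1).degree = d - 1 := by
        have h3 := congrArg Finsupp.degree (tsub_add_cancel_of_le h1)
        rw [map_add, Finsupp.degree_single, β.2] at h3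
        omega
      obtain ⟨γ, hγ⟩ : ∃ γ : Fin n →₀ ℕ, γ = β.1 - Finsupp.single i 1 := ⟨_, rfl⟩
      rw [← hγ] at h2 ⊢
      obtain ⟨k, hk, hk0⟩ : ∃ k, k ≠ i₀ ∧ γ k ≠ 0 := by
        by_contra! hcon
        have h4 : γ.degree = γ i₀ := by
          rw [Finsupp.degree_eq_sum, Finset.sum_eq_single i₀]
          · intro b _ hb; exact hcon b hb
          · intro h; exact absurd (Finset.mem_univ _) h
        have h5 : γ i₀ ≤ β.1 i₀ := by
          rw [hγ, Finsupp.tsub_apply]; omega
        omega
      rw [Finsupp.prod_fintype _ _ (fun i => pow_zero _), Finset.prod_eq_zero (Finset.mem_univ k),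
        mul_zero]
      rw [Pi.single_eq_of_ne hk, zero_pow hk0]
  · simp

end sub

section param

variable {n d : ℕ}

theorem lsub_sing_degenerate (hd : 2 ≤ d) (i₀ : Fin n) (A : Matrix (Fin n) (Fin n) ℂ)
    (y : Exps n d → ℂ) : ¬ Nondegenerate (lsub A (sing i₀ y)) := by
  intro h
  obtain ⟨w, hw, c, hc⟩ : ∃ w : Fin n → ℂ, w ≠ 0 ∧ ∃ c : ℂ, A *ᵥ w = Pi.single i₀ c := by
    by_cases hA : A.det = 0
    · obtain ⟨w, hw, h0⟩ := Matrix.exists_mulVec_eq_zero_iff.2 hA
      exact ⟨w, hw, 0, by rw [h0, Pi.single_zero]⟩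
    · have h1 : A *ᵥ (A⁻¹ *ᵥ (Pi.single i₀ 1)) = Pi.single i₀ (1 : ℂ) := by
        rw [mulVec_mulVec, Matrix.mul_nonsing_inv _ (isUnit_iff_ne_zero.2 hA), one_mulVec]
      refine ⟨A⁻¹ *ᵥ (Pi.single i₀ 1), ?_, 1, h1⟩
      intro h0
      rw [h0, mulVec_zero] at h1
      have := congrFun h1 i₀
      simp at this
  apply hw
  refine h w fun j => ?_
  rw [pderiv_lsub, map_sum]
  refine Finset.sum_eq_zero fun i _ => ?_
  rw [eval_mul, eval_lsub, hc, eval_pderiv_sing hd, mul_zero]

theorem eval_single_homog (i₀ : Fin n) {m : ℕ} {h : MvPolynomial (Fin n) ℂ}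
    (hh : h.IsHomogeneous m) :
    eval (Pi.single i₀ 1) h = coeff (Finsupp.single i₀ m) h := by
  conv_lhs => rw [← form_coeff hh, form, map_sum]
  rw [Finset.sum_eq_single (⟨Finsupp.single i₀ m, Finsupp.degree_single _ _⟩ : Exps n m)]
  · rw [eval_monomial, Finsupp.prod_fintype _ _ (fun i => pow_zero _), Finset.prod_eq_one, mul_one]
    intro j _
    by_cases hj : j = i₀
    · subst hj; rw [Pi.single_eq_same, one_pow]
    · show (Pi.single i₀ (1 : ℂ) : Fin n → ℂ) j ^ (Finsupp.single i₀ m j) = 1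
      rw [Finsupp.single_apply, if_neg (Ne.symm hj), pow_zero]
  · intro β _ hβ
    rw [eval_monomial, Finsupp.prod_fintype _ _ (fun i => pow_zero _)]
    obtain ⟨k, hk, hk0⟩ : ∃ k, k ≠ i₀ ∧ β.1 k ≠ 0 := by
      by_contra! hcon
      apply hβ
      apply Subtype.ext
      have h4 : β.1.degree = β.1 i₀ := by
        rw [Finsupp.degree_eq_sum, Finset.sum_eq_single i₀]
        · intro b _ hb; exact hcon b hb
        · intro h; exact absurd (Finset.mem_univ _) h
      rw [β.2] at h4
      ext j
      show β.1 j = Finsupp.single i₀ m j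
      by_cases hj : j = i₀
      · subst hj; rw [Finsupp.single_eq_same, ← h4]
      · rw [Finsupp.single_apply, if_neg (Ne.symm hj), hcon j hj]
    rw [Finset.prod_eq_zero (Finset.mem_univ k), mul_zero]
    rw [Pi.single_eq_of_ne hk, zero_pow hk0]
  · intro h; exact absurd (Finset.mem_univ _) h

theorem eq_sing (hd : 2 ≤ d) (i₀ : Fin n) {g : MvPolynomial (Fin n) ℂ} (hg : g.IsHomogeneous d)
    (h : ∀ j, eval (Pi.single i₀ 1) (pderiv j g) = 0) :
    g = sing i₀ (fun β : Exps n d => coeff β.1 g) := by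
  conv_lhs => rw [← form_coeff hg, form]
  rw [sing]
  refine Finset.sum_congr rfl fun β _ => ?_
  split_ifs with hβ
  · rfl
  · congr 1
    have h1 : Finsupp.single i₀ (d - 1) ≤ β.1 := by
      rw [Finsupp.single_le_iff]; omega
    have h2 := tsub_add_cancel_of_le h1
    have h3 : (β.1 - Finsupp.single i₀ (d - 1)).degree = 1 := by
      have h4 := congrArg Finsupp.degree h2
      rw [map_add, Finsupp.degree_single, β.2] at h4
      omega
    obtain ⟨j, hj⟩ : ∃ j, β.1 - Finsupp.single i₀ (d - 1) = Finsupp.single j 1 := by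
      set γ := β.1 - Finsupp.single i₀ (d - 1) with hγ
      obtain ⟨j, hj⟩ : ∃ j, γ j ≠ 0 := by
        by_contra! hcon
        rw [Finsupp.degree_eq_sum, Finset.sum_eq_zero fun j _ => hcon j] at h3
        exact absurd h3 (by norm_num)
      refine ⟨j, ?_⟩
      have h5 : Finsupp.single j 1 ≤ γ := by rw [Finsupp.single_le_iff]; omega
      have h6 := tsub_add_cancel_of_le h5
      have h7 := congrArg Finsupp.degree h6
      rw [map_add, Finsupp.degree_single, h3] at h7
      have h8 : (γ - Finsupp.single j 1).degree = 0 := by omega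
      rw [Finsupp.degree_eq_zero_iff] at h8
      rw [← h6, h8, zero_add]
    have h4 := h j
    rw [eval_single_homog i₀ (hg.pderiv (i := j)), coeff_pderiv] at h4
    rw [← h2, hj, add_comm]
    refine (mul_eq_zero.1 h4).resolve_right ?_
    have : (((Finsupp.single i₀ (d - 1) : Fin n →₀ ℕ) j : ℂ) + 1) =
        (((Finsupp.single i₀ (d - 1) : Fin n →₀ ℕ) j + 1 : ℕ) : ℂ) := by push_cast; rfl
    rw [this]
    exact Nat.cast_ne_zero.2 (Nat.succ_ne_zero _)

theorem exists_lsub_sing (hd : 2 ≤ d) (i₀ : Fin n) {f : MvPolynomial (Fin n) ℂ}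
    (hf : f.IsHomogeneous d) (hdeg : ¬ Nondegenerate f) :
    ∃ (A : Matrix (Fin n) (Fin n) ℂ) (y : Exps n d → ℂ), f = lsub A (sing i₀ y) := by
  rw [Nondegenerate] at hdeg
  push Not at hdeg
  obtain ⟨z, hz, hz0⟩ := hdeg
  have he0 : (Pi.single i₀ 1 : Fin n → ℂ) ≠ 0 := by
    intro h
    have := congrFun h i₀
    simp at this
  obtain ⟨E, hE⟩ := SeparatingDual.exists_continuousLinearEquiv_apply_eq (R := ℂ) he0 hz0
  set M : Matrix (Fin n) (Fin n) ℂ := LinearMap.toMatrix' (E : (Fin n → ℂ) →ₗ[ℂ] (Fin n → ℂ))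
    with hM
  set M' : Matrix (Fin n) (Fin n) ℂ :=
    LinearMap.toMatrix' (E.symm : (Fin n → ℂ) →ₗ[ℂ] (Fin n → ℂ)) with hM'
  have hMe : ∀ w, M *ᵥ w = E w := fun w => by
    rw [hM, ← Matrix.toLin'_apply, Matrix.toLin'_toMatrix']; rfl
  have hM'e : ∀ w, M' *ᵥ w = E.symm w := fun w => by
    rw [hM', ← Matrix.toLin'_apply, Matrix.toLin'_toMatrix']; rfl
  have hg : (lsub M f).IsHomogeneous d := lsub_isHomogeneous M hf
  have hgs := eq_sing hd i₀ hg (fun j => by
    rw [pderiv_lsub, map_sum]
    refine Finset.sum_eq_zero fun i _ => ?_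
    rw [eval_mul, eval_lsub, hMe, hE, hz, mul_zero])
  refine ⟨M', fun β : Exps n d => coeff β.1 (lsub M f), ?_⟩
  rw [← hgs]
  apply MvPolynomial.funext
  intro w
  rw [eval_lsub, eval_lsub, hM'e, hMe, ContinuousLinearEquiv.apply_symm_apply]

/-- the set of degenerate forms is irreducible -/
theorem prime_degenerate (hd : 2 ≤ d) (i₀ : Fin n) (P Q : PolyFun n d)
    (h : ∀ f : MvPolynomial (Fin n) ℂ, f.IsHomogeneous d → ¬ Nondegenerate f →
      value (P * Q) f = 0) :
    (∀ f : MvPolynomial (Fin n) ℂ, f.IsHomogeneous d → ¬ Nondegenerate f → value P f = 0) ∨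
    (∀ f : MvPolynomial (Fin n) ℂ, f.IsHomogeneous d → ¬ Nondegenerate f → value Q f = 0) := by
  set G : MvPolynomial (Fin n) (MvPolynomial ((Fin n × Fin n) ⊕ Exps n d) ℂ) :=
    lsub (Matrix.of fun i j => X (Sum.inl (i, j))) (sing i₀ (fun β => X (Sum.inr β))) with hG
  set Θ : PolyFun n d →ₐ[ℂ] MvPolynomial ((Fin n × Fin n) ⊕ Exps n d) ℂ :=
    aeval (fun α : Exps n d => coeff α.1 G) with hΘ
  have hmapG : ∀ p : (Fin n × Fin n) ⊕ Exps n d → ℂ, MvPolynomial.map (eval p) G =
      lsub (Matrix.of fun i j => p (Sum.inl (i, j))) (sing i₀ (fun β => p (Sum.inr β))) := by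
    intro p
    rw [hG, map_lsub, map_sing]
    congr 2
    · ext i j
      rw [Matrix.map_apply, Matrix.of_apply, Matrix.of_apply, eval_X]
    · funext β
      rw [eval_X]
  have hev : ∀ (R : PolyFun n d) (p : (Fin n × Fin n) ⊕ Exps n d → ℂ),
      eval p (Θ R) = value R (MvPolynomial.map (eval p) G) := by
    intro R p
    rw [hΘ, value]
    simp only [coeff_map]
    induction R using MvPolynomial.induction_on with
    | C a => simp
    | add p q hp hq => rw [map_add, map_add, hp, hq, map_add]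
    | mul_X q i hq => rw [map_mul, map_mul, hq, map_mul, aeval_X, eval_X]
  have hzero : Θ P * Θ Q = 0 := by
    rw [← map_mul]
    apply MvPolynomial.funext
    intro p
    rw [hev, hmapG, map_zero]
    exact h _ (lsub_isHomogeneous _ (sing_isHomogeneous _ _)) (lsub_sing_degenerate hd i₀ _ _)
  have hfin : ∀ R : PolyFun n d, Θ R = 0 →
      ∀ f : MvPolynomial (Fin n) ℂ, f.IsHomogeneous d → ¬ Nondegenerate f → value R f = 0 := by
    intro R hR f hf hdeg
    obtain ⟨A, y, rfl⟩ := exists_lsub_sing hd i₀ hf hdeg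
    have h1 := hev R (Sum.elim (fun ij => A ij.1 ij.2) y)
    rw [hR, map_zero, hmapG] at h1
    rw [← h1.symm]
    rfl
  rcases mul_eq_zero.1 hzero with h0 | h0
  · exact Or.inl (hfin P h0)
  · exact Or.inr (hfin Q h0)

/-- **Existence of the discriminant.** -/
theorem exists_discriminant (hn : 2 ≤ n) (hd : 3 ≤ d) : ∃ Δ : PolyFun n d, IsDiscriminant n d Δ := by
  set i₀ : Fin n := ⟨0, by omega⟩
  have h0 := detH_top_ne_zero hd i₀
  -- a denominator that is not a unit
  obtain ⟨b, hb, hbu⟩ : ∃ b : PolyFun n d, (∀ α₀ σ, b ∣ detH α₀ σ) ∧ ¬ IsUnit b := by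
    by_contra! hcon
    choose a b hb hab using fun i => exists_frac (n := n) (d := d) hn hd i
    choose b' hb' using fun i => (hcon (b i) (hb i)).exists_right_inv
    refine lower hn hd (fun i => a i * b' i) ?_
    intro i f hf hnd μ hμ
    have h1 : value (b i) f * value (b' i) f = 1 := by
      rw [← value_mul, hb']; exact map_one _
    rw [value_mul, hab i f hf hnd μ hμ, mul_assoc, h1, mul_one]
  have hb0 : b ≠ 0 := by
    rintro rfl
    exact h0 (zero_dvd_iff.1 (hb _ _))
  obtain ⟨π, hπ, hπb⟩ := WfDvdMonoid.exists_irreducible_factor hbu hb0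
  have hπdeg : ∀ f : MvPolynomial (Fin n) ℂ, f.IsHomogeneous d → value π f = 0 →
      ¬ Nondegenerate f := by
    intro f hf hπf
    refine degenerate_of_dvd hn hd b hb f hf ?_
    obtain ⟨q, rfl⟩ := hπb
    rw [value_mul, hπf, zero_mul]
  -- a prime factor of a determinant that vanishes at all degenerate forms
  have key : ∀ D : PolyFun n d, D ≠ 0 →
      (∀ f : MvPolynomial (Fin n) ℂ, f.IsHomogeneous d → ¬ Nondegenerate f → value D f = 0) →
      ∃ q : PolyFun n d, Irreducible q ∧
        ∀ f : MvPolynomial (Fin n) ℂ, f.IsHomogeneous d → ¬ Nondegenerate f → value q f = 0 := by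
    intro D
    induction D using WfDvdMonoid.induction_on_irreducible with
    | zero => intro h; exact absurd rfl h
    | unit u hu =>
      intro _ h
      exfalso
      have h1 := h 0 (isHomogeneous_zero _ _ _) (by
        intro hnd
        have := hnd (Pi.single i₀ 1) (fun i => by simp)
        have := congrFun this i₀
        simp at this)
      obtain ⟨v, hv⟩ := hu.exists_right_inv
      have h2 : value u (0 : MvPolynomial (Fin n) ℂ) * value v (0 : MvPolynomial (Fin n) ℂ) = 1 := by
        rw [← value_mul, hv]; exact map_one _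
      rw [h1, zero_mul] at h2
      exact zero_ne_one h2
    | mul a i ha hi ih =>
      intro _ h
      rcases prime_degenerate (by omega) i₀ i a h with h1 | h1
      · exact ⟨i, hi, h1⟩
      · exact ih ha h1
  obtain ⟨q, hq, hqdeg⟩ := key _ h0 fun f hf hdeg => detH_degenerate hn hd _ _ hf hdeg
  have hdvd : π ∣ q := dvd_of_value π q hπ fun f hf hπf => hqdeg f hf (hπdeg f hf hπf)
  have hassoc : Associated π q := hπ.associated_of_dvd hq hdvd
  refine ⟨π, hπ, fun f hf => ⟨hπdeg f hf, fun hdeg => ?_⟩⟩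
  obtain ⟨r, hr⟩ := hassoc.symm.dvd
  rw [hr, value_mul, hqdeg f hf hdeg, zero_mul]

/-- uniqueness up to associates -/
theorem discriminant_unique (Δ Δ' : PolyFun n d) (h : IsDiscriminant n d Δ)
    (h' : IsDiscriminant n d Δ') : Associated Δ Δ' := by
  refine h.irreducible.associated_of_dvd h'.irreducible
    (dvd_of_value Δ Δ' h.irreducible fun f hf hΔ => ?_)
  rw [h'.value_eq_zero_iff f hf]
  exact (h.value_eq_zero_iff f hf).1 hΔ

end param

end Pool.Agent.K1H4.Disc
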