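import Pool.Agent.K1H4.Disc.Gen

set_option autoImplicit false

/-! # A pencil of forms with many singular members -/

namespace Pool.Agent.K1H4.Disc

open MvPolynomial Matrix

section family

variable {n : ℕ} {B : Type*} [CommRing B]

/-- the family -/
noncomputable def fam (d : ℕ) (i₀ : Fin n) (c : Fin n → B) (s : B) : MvPolynomial (Fin n) B :=
  C s * X i₀ ^ d +
    ∑ j ∈ Finset.univ.erase i₀, (X j ^ d - C ((d : B) * c j) * (X i₀ ^ (d - 1) * X j))

theorem fam_isHomogeneous {d : ℕ} (hd : 1 ≤ d) (i₀ : Fin n) (c : Fin n → B) (s : B) :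
    (fam d i₀ c s).IsHomogeneous d := by
  refine IsHomogeneous.add ?_ (IsHomogeneous.sum _ _ _ fun j _ => IsHomogeneous.sub ?_ ?_)
  · have := (isHomogeneous_C (Fin n) s).mul ((isHomogeneous_X B i₀).pow d)
    rwa [zero_add, one_mul] at this
  · have := (isHomogeneous_X B j).pow d
    rwa [one_mul] at this
  · have := (isHomogeneous_C (Fin n) ((d : B) * c j)).mul
      (((isHomogeneous_X B i₀).pow (d - 1)).mul (isHomogeneous_X B j))
    rwa [zero_add, one_mul, Nat.sub_add_cancel hd] at this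

theorem map_fam {B' : Type*} [CommRing B'] (φ : B →+* B') (d : ℕ) (i₀ : Fin n) (c : Fin n → B)
    (s : B) : map φ (fam d i₀ c s) = fam d i₀ (fun j => φ (c j)) (φ s) := by
  simp [fam, map_sum]

theorem pderiv_fam_ne (d : ℕ) (i₀ : Fin n) (c : Fin n → B) (s : B) (j : Fin n) (hj : j ≠ i₀) :
    pderiv j (fam d i₀ c s) = C (d : B) * X j ^ (d - 1) - C ((d : B) * c j) * X i₀ ^ (d - 1) := by
  have h0 : ∀ k : ℕ, pderiv j ((X i₀ : MvPolynomial (Fin n) B) ^ k) = 0 := by
    intro k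
    rw [pderiv_pow, pderiv_X_of_ne (Ne.symm hj), mul_zero]
  rw [fam, map_add, pderiv_C_mul, h0, mul_zero, zero_add, map_sum,
    Finset.sum_eq_single_of_mem j (Finset.mem_erase.2 ⟨hj, Finset.mem_univ _⟩)]
  · rw [map_sub, pderiv_C_mul, pderiv_mul, h0, pderiv_pow, pderiv_X_self]
    rw [map_natCast]
    ring
  · intro k _ hk
    rw [map_sub, pderiv_C_mul, pderiv_mul, h0, pderiv_pow, pderiv_X_of_ne hk]
    ring

theorem pderiv_fam_self (d : ℕ) (i₀ : Fin n) (c : Fin n → B) (s : B) :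
    pderiv i₀ (fam d i₀ c s) = C (s * d) * X i₀ ^ (d - 1) -
      ∑ j ∈ Finset.univ.erase i₀, C ((d : B) * c j * ((d - 1 : ℕ) : B)) *
        (X i₀ ^ (d - 1 - 1) * X j) := by
  rw [fam, map_add, pderiv_C_mul, pderiv_pow, pderiv_X_self, map_sum, sub_eq_add_neg,
    ← Finset.sum_neg_distrib]
  congr 1
  · rw [C_mul, map_natCast]; ring
  · refine Finset.sum_congr rfl fun j hj => ?_
    rw [map_sub, pderiv_C_mul, pderiv_mul, pderiv_pow, pderiv_pow, pderiv_X_self,
      pderiv_X_of_ne (Finset.ne_of_mem_erase hj)]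
    simp only [C_mul, map_natCast]
    ring

end family

section crit

variable {n d : ℕ}

theorem fam_degenerate (i₀ : Fin n) (κ ζ : Fin n → ℂ) (hd : 2 ≤ d)
    (hζ : ∀ j, ζ j ^ (d - 1) = 1) (s : ℂ)
    (hs : s = ((d - 1 : ℕ) : ℂ) * ∑ j ∈ Finset.univ.erase i₀, κ j ^ d * ζ j) :
    ¬ Nondegenerate (fam d i₀ (fun j => κ j ^ (d - 1)) s) := by
  intro h
  have h1 := h (fun j => if j = i₀ then 1 else κ j * ζ j) ?_
  · have := congrFun h1 i₀
    simp at this
  · intro i
    by_cases hi : i = i₀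
    · subst hi
      rw [pderiv_fam_self, eval_sub, eval_mul, eval_C, eval_pow, eval_X, if_pos rfl, one_pow,
        eval_sum, hs, sub_eq_zero, mul_one, Finset.mul_sum, Finset.sum_mul]
      refine Finset.sum_congr rfl fun j hj => ?_
      rw [eval_mul, eval_mul, eval_C, eval_pow, eval_X, eval_X, if_pos rfl, one_pow,
        if_neg (Finset.ne_of_mem_erase hj)]
      have : κ j ^ d = κ j ^ (d - 1) * κ j := by rw [← pow_succ, Nat.sub_add_cancel (by omega)]
      rw [this]
      ring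
    · rw [pderiv_fam_ne _ _ _ _ _ hi]
      simp only [eval_sub, eval_mul, eval_C, eval_pow, eval_X, if_neg hi, if_true, one_pow]
      rw [mul_pow, hζ]
      ring

end crit

section fermat

variable {n d : ℕ}

theorem pderiv_fer (i₀ j : Fin n) :
    pderiv j (fam d i₀ (0 : Fin n → ℂ) 1) = C (d : ℂ) * X j ^ (d - 1) := by
  by_cases hj : j = i₀
  · subst hj
    rw [pderiv_fam_self]
    simp
  · rw [pderiv_fam_ne _ _ _ _ _ hj]
    simp

theorem fer_nondegenerate (hd : 3 ≤ d) (i₀ : Fin n) :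
    Nondegenerate (fam d i₀ (0 : Fin n → ℂ) 1) := by
  intro z hz
  funext j
  have h1 := hz j
  rw [pderiv_fer, eval_mul, eval_C, eval_pow, eval_X] at h1
  have hd0 : (d : ℂ) ≠ 0 := by rw [Nat.cast_ne_zero]; omega
  rcases mul_eq_zero.1 h1 with h | h
  · exact absurd h hd0
  · exact pow_eq_zero_iff (by omega) |>.1 h

/-- the exponent vector `(d-2, …, d-2)` -/
noncomputable def top (n d : ℕ) : Exps n (n * (d - 2)) :=
  ⟨Finsupp.equivFunOnFinite.symm fun _ => d - 2, by rw [Finsupp.degree_eq_sum]; simp⟩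

theorem hess_fer (i₀ : Fin n) :
    hess (fam d i₀ (0 : Fin n → ℂ) 1) = monomial (top n d).1 (((d : ℂ) * (d - 1 : ℕ)) ^ n) := by
  have h1 : (Matrix.of fun i j => pderiv i (pderiv j (fam d i₀ (0 : Fin n → ℂ) 1))) =
      Matrix.diagonal fun i => (C ((d : ℂ) * (d - 1 : ℕ)) * X i ^ (d - 2) :
        MvPolynomial (Fin n) ℂ) := by
    ext1 i j
    rw [Matrix.of_apply, pderiv_fer, pderiv_C_mul, pderiv_pow]
    by_cases hij : i = j
    · subst hij
      rw [Matrix.diagonal_apply_eq, pderiv_X_self, C_mul, map_natCast C (d - 1), Nat.sub_sub]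
      ring
    · rw [Matrix.diagonal_apply_ne _ hij, pderiv_X_of_ne (Ne.symm hij)]
      ring
  rw [hess, h1, det_diagonal, Finset.prod_mul_distrib, Finset.prod_const, Finset.card_univ,
    Fintype.card_fin, ← C_pow]
  rw [monomial_eq, Finsupp.prod_fintype _ _ (fun i => pow_zero _)]
  rfl

/-- the direction attached to a monomial -/
noncomputable def jj (i₀ : Fin n) (γ : Exps n (n * (d - 2))) : Fin n :=
  open Classical in
  if h : ∃ j, j ≠ i₀ ∧ d - 1 ≤ γ.1 j then h.choose else i₀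

/-- the choice of multiples -/
noncomputable def sig (i₀ : Fin n) (γ : Exps n (n * (d - 2))) : Idx n d :=
  if h : d - 1 ≤ γ.1 (jj i₀ γ) then
    (⟨γ.1 - Finsupp.single (jj i₀ γ) (d - 1), by
      have h1 : γ.1 - Finsupp.single (jj i₀ γ) (d - 1) + Finsupp.single (jj i₀ γ) (d - 1) = γ.1 :=
        tsub_add_cancel_of_le (Finsupp.single_le_iff.2 h)
      have h2 := congrArg Finsupp.degree h1
      rw [map_add, Finsupp.degree_single, γ.2] at h2
      omega⟩, jj i₀ γ)
  else (⟨Finsupp.single i₀ _, Finsupp.degree_single _ _⟩, jj i₀ γ)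

theorem sig_snd (i₀ : Fin n) (γ : Exps n (n * (d - 2))) : (sig i₀ γ).2 = jj i₀ γ := by
  rw [sig]
  split_ifs <;> rfl

theorem jj_spec (i₀ : Fin n) (γ : Exps n (n * (d - 2))) (h : jj i₀ γ = i₀) :
    ∀ j, j ≠ i₀ → γ.1 j < d - 1 := by
  intro j hj
  by_contra hcon
  have hex : ∃ j, j ≠ i₀ ∧ d - 1 ≤ γ.1 j := ⟨j, hj, not_lt.1 hcon⟩
  rw [jj, dif_pos hex] at h
  exact hex.choose_spec.1 h

theorem le_jj (hd : 3 ≤ d) (i₀ : Fin n) (γ : Exps n (n * (d - 2))) (hγ : γ ≠ top n d) :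
    d - 1 ≤ γ.1 (jj i₀ γ) := by
  by_cases hex : ∃ j, j ≠ i₀ ∧ d - 1 ≤ γ.1 j
  · rw [jj, dif_pos hex]
    exact hex.choose_spec.2
  · rw [jj, dif_neg hex]
    by_contra hcon
    apply hγ
    have h1 : ∀ j, γ.1 j ≤ d - 2 := by
      intro j
      by_cases hj : j = i₀
      · subst hj; omega
      · have : ¬ (d - 1 ≤ γ.1 j) := fun h => hex ⟨j, hj, h⟩
        omega
    have h2 : ∑ j, γ.1 j = ∑ j : Fin n, (d - 2) := by
      rw [← Finsupp.degree_eq_sum, Finset.sum_const, Finset.card_univ, Fintype.card_fin,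
        smul_eq_mul]
      exact γ.2
    have h3 := (Finset.sum_eq_sum_iff_of_le fun j _ => h1 j).1 h2
    apply Subtype.ext
    ext j
    exact h3 j (Finset.mem_univ j)

theorem card_jj (hd : 3 ≤ d) (i₀ : Fin n) [DecidablePred fun γ : Exps n (n * (d - 2)) => jj i₀ γ = i₀] :
    (Finset.univ.filter fun γ : Exps n (n * (d - 2)) => jj i₀ γ = i₀).card ≤
      (d - 1) ^ (n - 1) := by
  have h1 : Fintype.card ({j : Fin n // j ≠ i₀} → Fin (d - 1)) = (d - 1) ^ (n - 1) := by
    rw [Fintype.card_fun, Fintype.card_fin, Fintype.card_subtype_compl, Fintype.card_fin,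
      Fintype.card_subtype_eq]
  rw [← h1, ← Finset.card_univ]
  refine Finset.card_le_card_of_injOn (fun γ j => ⟨min (γ.1 j.1) (d - 2), by omega⟩)
    (fun _ _ => Finset.mem_coe.2 (Finset.mem_univ _)) ?_
  intro a ha b hb hab
  have ha' := jj_spec i₀ a (Finset.mem_filter.1 ha).2
  have hb' := jj_spec i₀ b (Finset.mem_filter.1 hb).2
  have h2 : ∀ j, j ≠ i₀ → a.1 j = b.1 j := by
    intro j hj
    have h3 := congrFun hab ⟨j, hj⟩
    have h4 := ha' j hj
    have h5 := hb' j hj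
    simp only [Fin.mk.injEq] at h3
    omega
  apply Subtype.ext
  ext j
  by_cases hj : j = i₀
  · subst hj
    have h6 := a.2
    have h7 := b.2
    rw [Finsupp.degree_eq_sum, ← Finset.add_sum_erase _ _ (Finset.mem_univ j)] at h6 h7
    have h8 : ∑ k ∈ Finset.univ.erase j, a.1 k = ∑ k ∈ Finset.univ.erase j, b.1 k :=
      Finset.sum_congr rfl fun k hk => h2 k (Finset.ne_of_mem_erase hk)
    omega
  · exact h2 j hj

theorem det_fer_ne_zero (hd : 3 ≤ d) (i₀ : Fin n) :
    (mat (fam d i₀ (0 : Fin n → ℂ) 1) (hess (fam d i₀ (0 : Fin n → ℂ) 1)) (top n d)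
      (sig i₀)).det ≠ 0 := by
  have hd0 : (d : ℂ) ≠ 0 := by rw [Nat.cast_ne_zero]; omega
  have hd1 : ((d - 1 : ℕ) : ℂ) ≠ 0 := by rw [Nat.cast_ne_zero]; omega
  have h1 : mat (fam d i₀ (0 : Fin n → ℂ) 1) (hess (fam d i₀ (0 : Fin n → ℂ) 1)) (top n d)
      (sig i₀) = Matrix.diagonal fun γ => if γ = top n d then ((d : ℂ) * (d - 1 : ℕ)) ^ n
        else (d : ℂ) := by
    ext γ α
    rw [mat, Matrix.of_apply]
    by_cases hγ : γ = top n d
    · subst hγ
      rw [if_pos rfl, hess_fer, coeff_monomial]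
      by_cases hα : top n d = α
      · subst hα
        rw [Matrix.diagonal_apply_eq, if_pos rfl, if_pos rfl]
      · rw [Matrix.diagonal_apply_ne _ hα, if_neg fun h => hα (Subtype.ext h)]
    · have h2 := le_jj hd i₀ γ hγ
      have h3 : rowP (fam d i₀ (0 : Fin n → ℂ) 1) (sig i₀ γ) = monomial γ.1 (d : ℂ) := by
        rw [sig, dif_pos h2, rowP]
        show monomial (γ.1 - Finsupp.single (jj i₀ γ) (d - 1)) 1 *
          pderiv (jj i₀ γ) (fam d i₀ (0 : Fin n → ℂ) 1) = _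
        rw [pderiv_fer, X_pow_eq_monomial, C_mul_monomial, monomial_mul, one_mul,
          mul_one, tsub_add_cancel_of_le (Finsupp.single_le_iff.2 h2)]
      rw [if_neg hγ, h3, coeff_monomial]
      by_cases hα : γ = α
      · subst hα
        rw [Matrix.diagonal_apply_eq, if_pos rfl, if_neg hγ]
      · rw [Matrix.diagonal_apply_ne _ hα, if_neg fun h => hα (Subtype.ext h)]
  rw [h1, det_diagonal, Finset.prod_ne_zero_iff]
  intro γ _
  split_ifs
  · exact pow_ne_zero _ (mul_ne_zero hd0 hd1)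
  · exact hd0

end fermat

end Pool.Agent.K1H4.Disc
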