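import Pool.Agent.K1H4.Disc.Soc

set_option autoImplicit false

/-! # Determinants in the coefficients of the generic form -/

namespace Pool.Agent.K1H4.Disc

open MvPolynomial Matrix

section defs

variable {n d : ℕ} {B : Type*} [CommRing B]

/-- index set of the multiples `z ^ β * ∂_j f` -/
abbrev Idx (n d : ℕ) : Type := Exps n (n * (d - 2) - (d - 1)) × Fin n

/-- the multiples of the partial derivatives of degree `n * (d - 2)` -/
noncomputable def rowP (f : MvPolynomial (Fin n) B) (s : Idx n d) : MvPolynomial (Fin n) B :=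
  monomial s.1.1 1 * pderiv s.2 f

/-- rows: coefficient vectors of multiples of partial derivatives, and of `h` -/
noncomputable def mat (f h : MvPolynomial (Fin n) B) (α₀ : Exps n (n * (d - 2)))
    (σ : Exps n (n * (d - 2)) → Idx n d) :
    Matrix (Exps n (n * (d - 2))) (Exps n (n * (d - 2))) B :=
  Matrix.of fun γ α => if γ = α₀ then coeff α.1 h else coeff α.1 (rowP f (σ γ))

theorem mat_eq_updateRow (f h h' : MvPolynomial (Fin n) B) (α₀ : Exps n (n * (d - 2)))
    (σ : Exps n (n * (d - 2)) → Idx n d) :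
    mat f h α₀ σ = (mat f h' α₀ σ).updateRow α₀ fun α => coeff α.1 h := by
  ext γ α
  by_cases hγ : γ = α₀
  · subst hγ
    simp [mat]
  · simp [mat, hγ]

theorem mat_map {B' : Type*} [CommRing B'] (φ : B →+* B') (f h : MvPolynomial (Fin n) B)
    (α₀ : Exps n (n * (d - 2))) (σ : Exps n (n * (d - 2)) → Idx n d) :
    φ.mapMatrix (mat f h α₀ σ) = mat (map φ f) (map φ h) α₀ σ := by
  ext γ α
  rw [RingHom.mapMatrix_apply, Matrix.map_apply, mat, mat, Matrix.of_apply, Matrix.of_apply]
  split_ifs with hγ
  · rw [coeff_map]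
  · rw [rowP, rowP, pderiv_map, ← coeff_map, map_mul, map_monomial, map_one]

theorem hess_map {B' : Type*} [CommRing B'] (φ : B →+* B') (f : MvPolynomial (Fin n) B) :
    hess (map φ f) = map φ (hess f) := by
  rw [hess, hess, RingHom.map_det]
  congr 1
  ext i j
  rw [RingHom.mapMatrix_apply, Matrix.map_apply, Matrix.of_apply, Matrix.of_apply, pderiv_map,
    pderiv_map]

end defs

section generic

variable {n d : ℕ}

/-- the generic form -/
noncomputable def gen (n d : ℕ) : MvPolynomial (Fin n) (PolyFun n d) :=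
  ∑ α : Exps n d, monomial α.1 (X α)

/-- the polynomial with given coefficients -/
noncomputable def form (x : Exps n d → ℂ) : MvPolynomial (Fin n) ℂ :=
  ∑ α : Exps n d, monomial α.1 (x α)

theorem form_isHomogeneous (x : Exps n d → ℂ) : (form x).IsHomogeneous d :=
  IsHomogeneous.sum _ _ _ fun α _ => isHomogeneous_monomial _ α.2

theorem coeff_form (x : Exps n d → ℂ) (α : Exps n d) : coeff α.1 (form x) = x α := by
  rw [form, coeff_sum]
  rw [Finset.sum_eq_single α]
  · rw [coeff_monomial, if_pos rfl]
  · intro β _ hβ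
    rw [coeff_monomial, if_neg fun h => hβ (Subtype.ext h)]
  · intro h; exact absurd (Finset.mem_univ _) h

theorem form_coeff {f : MvPolynomial (Fin n) ℂ} (hf : f.IsHomogeneous d) :
    form (fun α : Exps n d => coeff α.1 f) = f := by
  ext m
  by_cases hm : m.degree = d
  · exact coeff_form _ ⟨m, hm⟩
  · rw [(form_isHomogeneous _).coeff_eq_zero hm, hf.coeff_eq_zero hm]

theorem map_gen (x : Exps n d → ℂ) : map (eval x) (gen n d) = form x := by
  rw [gen, form, map_sum]
  exact Finset.sum_congr rfl fun α _ => by rw [map_monomial, eval_X]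

theorem map_gen' {f : MvPolynomial (Fin n) ℂ} (hf : f.IsHomogeneous d) :
    map (eval fun α : Exps n d => coeff α.1 f) (gen n d) = f := by
  rw [map_gen, form_coeff hf]

/-- the determinants -/
noncomputable def detH (α₀ : Exps n (n * (d - 2))) (σ : Exps n (n * (d - 2)) → Idx n d) :
    PolyFun n d := (mat (gen n d) (hess (gen n d)) α₀ σ).det

noncomputable def detM (α₀ : Exps n (n * (d - 2))) (σ : Exps n (n * (d - 2)) → Idx n d)
    (i : Exps n (n * (d - 2))) : PolyFun n d :=
  (mat (gen n d) (monomial i.1 1) α₀ σ).det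

theorem value_detH (α₀ : Exps n (n * (d - 2))) (σ : Exps n (n * (d - 2)) → Idx n d)
    {f : MvPolynomial (Fin n) ℂ} (hf : f.IsHomogeneous d) :
    value (detH α₀ σ) f = (mat f (hess f) α₀ σ).det := by
  rw [value, detH, RingHom.map_det, mat_map, map_gen' hf, ← hess_map, map_gen' hf]

theorem value_detM (α₀ : Exps n (n * (d - 2))) (σ : Exps n (n * (d - 2)) → Idx n d)
    (i : Exps n (n * (d - 2)))
    {f : MvPolynomial (Fin n) ℂ} (hf : f.IsHomogeneous d) :
    value (detM α₀ σ i) f = (mat f (monomial i.1 1) α₀ σ).det := by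
  rw [value, detM, RingHom.map_det, mat_map, map_gen' hf, map_monomial, map_one]

theorem value_ext (P Q : PolyFun n d)
    (h : ∀ f : MvPolynomial (Fin n) ℂ, f.IsHomogeneous d → value P f = value Q f) : P = Q := by
  apply MvPolynomial.funext
  intro x
  have := h (form x) (form_isHomogeneous x)
  rw [value, value] at this
  simpa only [coeff_form] using this

theorem value_mul (P Q : PolyFun n d) (f : MvPolynomial (Fin n) ℂ) :
    value (P * Q) f = value P f * value Q f := map_mul _ _ _

theorem value_form (P : PolyFun n d) (x : Exps n d → ℂ) : value P (form x) = eval x P := by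
  rw [value]
  simp only [coeff_form]

end generic

section linear

variable {n d : ℕ}

theorem rowP_isHomogeneous (hρ : d - 1 ≤ n * (d - 2)) {f : MvPolynomial (Fin n) ℂ}
    (hf : f.IsHomogeneous d) (s : Idx n d) : (rowP f s).IsHomogeneous (n * (d - 2)) := by
  have h1 := (isHomogeneous_monomial (1 : ℂ) s.1.2).mul (hf.pderiv (i := s.2))
  rwa [Nat.sub_add_cancel hρ] at h1

theorem rowP_mem {f : MvPolynomial (Fin n) ℂ} (s : Idx n d) : rowP f s ∈ jac f :=
  Ideal.mul_mem_left _ _ (Ideal.subset_span ⟨s.2, rfl⟩)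

/-- the coefficient vectors of the elements of the Jacobian ideal of top degree -/
noncomputable def Wv (d : ℕ) (f : MvPolynomial (Fin n) ℂ) :
    Submodule ℂ (Exps n (n * (d - 2)) → ℂ) where
  carrier := {v | form v ∈ jac f}
  add_mem' := by
    intro a b ha hb
    have : form (a + b) = form a + form b := by
      rw [form, form, form, ← Finset.sum_add_distrib]
      exact Finset.sum_congr rfl fun α _ => by rw [Pi.add_apply, map_add]
    show form (a + b) ∈ jac f
    rw [this]
    exact Ideal.add_mem _ ha hb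
  zero_mem' := by
    have : form (0 : Exps n (n * (d - 2)) → ℂ) = 0 := by
      rw [form]
      exact Finset.sum_eq_zero fun α _ => by rw [Pi.zero_apply, map_zero]
    show form (0 : Exps n (n * (d - 2)) → ℂ) ∈ jac f
    rw [this]
    exact Ideal.zero_mem _
  smul_mem' := by
    intro c a ha
    have : form (c • a) = C c * form a := by
      rw [form, form, Finset.mul_sum]
      exact Finset.sum_congr rfl fun α _ => by rw [Pi.smul_apply, smul_eq_mul, C_mul_monomial]
    show form (c • a) ∈ jac f
    rw [this]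
    exact Ideal.mul_mem_left _ _ ha

/-- coefficient vector -/
noncomputable def cvec (d : ℕ) (h : MvPolynomial (Fin n) ℂ) : Exps n (n * (d - 2)) → ℂ :=
  fun α => coeff α.1 h

theorem vec_mem_Wv {f h : MvPolynomial (Fin n) ℂ} (hh : h.IsHomogeneous (n * (d - 2))) :
    cvec d h ∈ Wv d f ↔ h ∈ jac f := by
  show form (fun α : Exps n (n * (d - 2)) => coeff α.1 h) ∈ jac f ↔ h ∈ jac f
  rw [form_coeff hh]

theorem det_mat_eq_zero (hd : 3 ≤ d) (hρ : d - 1 ≤ n * (d - 2)) {f : MvPolynomial (Fin n) ℂ}
    (hf : f.IsHomogeneous d)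
    (hnd : Nondegenerate f) (h : MvPolynomial (Fin n) ℂ) (hh : h.IsHomogeneous (n * (d - 2)))
    (hj : h ∈ jac f) (α₀ : Exps n (n * (d - 2))) (σ : Exps n (n * (d - 2)) → Idx n d) :
    (mat f h α₀ σ).det = 0 := by
  have hlt : Wv d f < ⊤ := by
    rw [lt_top_iff_ne_top]
    intro htop
    have : cvec d (hess f) ∈ Wv d f := by rw [htop]; trivial
    rw [vec_mem_Wv (hess_isHomogeneous hf)] at this
    exact hess_notMem hd hf hnd this
  obtain ⟨φ, hφ, hle⟩ := Submodule.exists_le_ker_of_lt_top _ hlt
  rw [← Matrix.exists_mulVec_eq_zero_iff]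
  refine ⟨fun α => φ (Pi.single α 1), ?_, ?_⟩
  · intro h0
    apply hφ
    apply LinearMap.pi_ext'
    intro α
    apply LinearMap.ext_ring
    exact congrFun h0 α
  · have key : ∀ v : Exps n (n * (d - 2)) → ℂ, ∑ α, v α * φ (Pi.single α 1) = φ v := by
      intro v
      conv_rhs => rw [← Finset.univ_sum_single v, map_sum]
      refine Finset.sum_congr rfl fun α _ => ?_
      rw [← smul_eq_mul, ← map_smul]
      congr 1
      ext β
      by_cases hβ : β = α
      · subst hβ; simp
      · simp [hβ]
    funext γ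
    rw [mulVec, dotProduct, Pi.zero_apply]
    by_cases hγ : γ = α₀
    · have : ∀ α, mat f h α₀ σ γ α = cvec d h α := fun α => by
        rw [mat, Matrix.of_apply, if_pos hγ]; rfl
      simp only [this, key]
      exact hle ((vec_mem_Wv hh).2 hj)
    · have : ∀ α, mat f h α₀ σ γ α = cvec d (rowP f (σ γ)) α := fun α => by
        rw [mat, Matrix.of_apply, if_neg hγ]; rfl
      simp only [this, key]
      exact hle ((vec_mem_Wv (rowP_isHomogeneous hρ hf _)).2 (rowP_mem _))

theorem det_mat_eq (hd : 3 ≤ d) (hρ : d - 1 ≤ n * (d - 2)) {f : MvPolynomial (Fin n) ℂ}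
    (hf : f.IsHomogeneous d)
    (hnd : Nondegenerate f) (h : MvPolynomial (Fin n) ℂ) (hh : h.IsHomogeneous (n * (d - 2)))
    (c : ℂ) (hj : h - C c * hess f ∈ jac f) (α₀ : Exps n (n * (d - 2)))
    (σ : Exps n (n * (d - 2)) → Idx n d) :
    (mat f h α₀ σ).det = c * (mat f (hess f) α₀ σ).det := by
  have h1 : (mat f (h - C c * hess f) α₀ σ).det = 0 := by
    refine det_mat_eq_zero hd hρ hf hnd _ (hh.sub ?_) hj α₀ σ
    have := (isHomogeneous_C (Fin n) c).mul (hess_isHomogeneous hf)
    rwa [zero_add] at this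
  rw [mat_eq_updateRow f _ (hess f)] at h1
  have h2 : (fun α : Exps n (n * (d - 2)) => coeff α.1 (h - C c * hess f)) =
      (fun α : Exps n (n * (d - 2)) => coeff α.1 h) + (-c) • fun α => coeff α.1 (hess f) := by
    funext α
    rw [coeff_sub, coeff_C_mul, Pi.add_apply, Pi.smul_apply, smul_eq_mul]
    ring
  rw [h2, det_updateRow_add, det_updateRow_smul, ← mat_eq_updateRow, ← mat_eq_updateRow] at h1
  linear_combination h1

/-- some determinant does not vanish at a nondegenerate form -/
theorem exists_det_ne_zero (hn : 0 < n) (hd : 3 ≤ d) (hρ : d - 1 ≤ n * (d - 2)) {f : MvPolynomial (Fin n) ℂ}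
    (hf : f.IsHomogeneous d) (hnd : Nondegenerate f) :
    ∃ (α₀ : Exps n (n * (d - 2))) (σ : Exps n (n * (d - 2)) → Idx n d),
      (mat f (hess f) α₀ σ).det ≠ 0 := by
  by_contra! hcon
  have hh0 : cvec d (hess f) ≠ 0 := by
    intro h
    have h1 : cvec d (hess f) ∈ Wv d f := by rw [h]; exact Submodule.zero_mem _
    exact hess_notMem hd hf hnd ((vec_mem_Wv (hess_isHomogeneous hf)).1 h1)
  obtain ⟨α₀, hα₀⟩ : ∃ α₀, cvec d (hess f) α₀ ≠ 0 := by
    by_contra! h
    exact hh0 (funext h)
  -- the rows span
  have hspan : Submodule.span ℂ (insert (cvec d (hess f))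
      (Set.range fun s : Idx n d => cvec d (rowP f s))) = ⊤ := by
    rw [eq_top_iff]
    intro v _
    obtain ⟨c, hc⟩ := exists_mu hd hf hnd (form v) (form_isHomogeneous v)
    have hhom : (form v - C c * hess f).IsHomogeneous (n * (d - 2)) := by
      have := (isHomogeneous_C (Fin n) c).mul (hess_isHomogeneous hf)
      rw [zero_add] at this
      exact (form_isHomogeneous v).sub this
    obtain ⟨q, hq1, hq2⟩ := mem_idl_homog (a := n * (d - 2) - (d - 1)) (fun i => pderiv i f)
      (fun i => hf.pderiv) (Nat.sub_add_cancel hρ).symm _ hhom hc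
    have hv : v = c • cvec d (hess f) + ∑ j, ∑ β : Exps n (n * (d - 2) - (d - 1)),
        coeff β.1 (q j) • cvec d (rowP f ((β, j) : Idx n d)) := by
      funext α
      have h1 : coeff α.1 (form v) = coeff α.1 (C c * hess f + ∑ j, q j * pderiv j f) := by
        rw [← hq2]; congr 1; ring
      rw [coeff_form] at h1
      rw [h1, coeff_add, coeff_C_mul, coeff_sum, Pi.add_apply, Pi.smul_apply, smul_eq_mul]
      congr 1
      rw [Finset.sum_apply]
      refine Finset.sum_congr rfl fun j _ => ?_
      rw [Finset.sum_apply]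
      conv_lhs => rw [← form_coeff (hq1 j), form, Finset.sum_mul, coeff_sum]
      refine Finset.sum_congr rfl fun β _ => ?_
      rw [Pi.smul_apply, smul_eq_mul, cvec, rowP, ← coeff_C_mul, ← mul_assoc, C_mul_monomial,
        mul_one]
    rw [hv]
    refine Submodule.add_mem _ (Submodule.smul_mem _ _ (Submodule.subset_span
      (Set.mem_insert _ _))) (Submodule.sum_mem _ fun j _ => Submodule.sum_mem _ fun β _ =>
        Submodule.smul_mem _ _ (Submodule.subset_span (Set.mem_insert_of_mem _ ⟨_, rfl⟩)))
  have key : ∀ S : Finset (Exps n (n * (d - 2))), α₀ ∉ S →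
      ∀ M : Matrix (Exps n (n * (d - 2))) (Exps n (n * (d - 2))) ℂ,
      M α₀ = cvec d (hess f) → (∀ γ, γ ∉ S → γ ≠ α₀ → ∃ s : Idx n d, M γ = cvec d (rowP f s)) →
      M.det = 0 := by
    intro S
    induction S using Finset.induction_on with
    | empty =>
      intro _ M hM0 hM
      have hne : Nonempty (Idx n d) := ⟨(⟨Finsupp.single ⟨0, hn⟩ _, Finsupp.degree_single _ _⟩,
        ⟨0, hn⟩)⟩
      choose! σ hσ using fun γ (h : γ ≠ α₀) => hM γ (Finset.notMem_empty _) h
      rw [← hcon α₀ σ]
      congr 1
      ext γ α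
      rw [mat, Matrix.of_apply]
      split_ifs with hγ
      · rw [hγ, hM0]; rfl
      · rw [hσ γ hγ]; rfl
    | insert γ₀ S hγ₀ ih =>
      intro hα M hM0 hM
      rw [Finset.mem_insert, not_or] at hα
      have h1 : ∀ v ∈ Submodule.span ℂ (insert (cvec d (hess f))
          (Set.range fun s : Idx n d => cvec d (rowP f s))), (M.updateRow γ₀ v).det = 0 := by
        intro v hv
        induction hv using Submodule.span_induction with
        | mem v hv =>
          rcases hv with rfl | ⟨s, rfl⟩
          · refine det_zero_of_row_eq (i := α₀) (j := γ₀) hα.1 ?_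
            rw [updateRow_self, updateRow_ne hα.1, hM0]
          · refine ih hα.2 _ (by rw [updateRow_ne hα.1, hM0]) ?_
            intro γ hγ hγα
            by_cases h : γ = γ₀
            · exact ⟨s, by rw [h, updateRow_self]⟩
            · rw [updateRow_ne h]
              exact hM γ (by rw [Finset.mem_insert, not_or]; exact ⟨h, hγ⟩) hγα
        | zero => exact det_eq_zero_of_row_eq_zero γ₀ (fun j => by rw [updateRow_self]; rfl)
        | add x y _ _ hx hy => rw [det_updateRow_add, hx, hy, add_zero]
        | smul c x _ hx => rw [det_updateRow_smul, hx, mul_zero]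
      have h2 := h1 (M γ₀) (by rw [hspan]; trivial)
      rwa [updateRow_eq_self] at h2
  have h1 := key (Finset.univ.erase α₀) (Finset.notMem_erase _ _)
    ((1 : Matrix _ _ ℂ).updateRow α₀ (cvec d (hess f))) (by rw [updateRow_self]) (by
      intro γ hγ hne
      exact absurd (Finset.mem_erase.2 ⟨hne, Finset.mem_univ _⟩) hγ)
  have h2 : ((1 : Matrix _ _ ℂ).updateRow α₀ (cvec d (hess f))).det = cvec d (hess f) α₀ := by
    rw [← det_transpose, ← updateCol_transpose, transpose_one, ← cramer_apply, cramer_one]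
    rfl
  rw [h2] at h1
  exact hα₀ h1

end linear

end Pool.Agent.K1H4.Disc
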