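import Pool.Agent.K1H4.Disc.Defs
import Pool.Agent.K1H4.Disc.Depth

set_option autoImplicit false

/-! # The Hilbert function of a complete intersection in the top degree -/

namespace Pool.Agent.K1H4.Disc

open MvPolynomial

variable {n : ℕ}

/-- exponents of degree `j` with the first `k` ones smaller than `e` -/
abbrev Ex (n e k j : ℕ) : Type := {α : Fin n →₀ ℕ // α.degree = j ∧ ∀ i : Fin n, i.val < k → α i < e}

instance (n e k j : ℕ) : Finite (Ex n e k j) :=
  Finite.of_injective (β := {α : Fin n →₀ ℕ // α.degree = j}) (fun α => ⟨α.1, α.2.1⟩)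
    (fun _ _ h => Subtype.ext (congrArg (fun x => x.1) h))

/-- their number -/
noncomputable def cnt (n e k j : ℕ) : ℕ := Nat.card (Ex n e k j)

theorem cnt_succ (e k j : ℕ) (hk : k < n) :
    cnt n e (k + 1) (j + e) + cnt n e k j = cnt n e k (j + e) := by
  classical
  set κ : Fin n := ⟨k, hk⟩ with hκ
  have e1 : Ex n e k (j + e) ≃ Ex n e (k + 1) (j + e) ⊕ Ex n e k j :=
    { toFun := fun α => if h : α.1 κ < e then
          Sum.inl ⟨α.1, α.2.1, fun i hi => by
            rcases Nat.lt_succ_iff_lt_or_eq.1 hi with h' | h'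
            · exact α.2.2 i h'
            · have : i = κ := Fin.ext h'
              rw [this]; exact h⟩
        else Sum.inr ⟨α.1 - Finsupp.single κ e, by
            have h1 : α.1 - Finsupp.single κ e + Finsupp.single κ e = α.1 :=
              tsub_add_cancel_of_le (Finsupp.single_le_iff.2 (not_lt.1 h))
            have h2 := congrArg Finsupp.degree h1
            rw [map_add, Finsupp.degree_single, α.2.1] at h2
            omega, fun i hi => by
            have h3 : i ≠ κ := fun h' => by rw [h', hκ] at hi; exact lt_irrefl _ hi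
            rw [Finsupp.tsub_apply, Finsupp.single_apply, if_neg (Ne.symm h3), Nat.sub_zero]
            exact α.2.2 i hi⟩
      invFun := fun s => Sum.elim
        (fun α => ⟨α.1, α.2.1, fun i hi => α.2.2 i (Nat.lt_succ_of_lt hi)⟩)
        (fun α => ⟨α.1 + Finsupp.single κ e, by
            rw [map_add, Finsupp.degree_single, α.2.1], fun i hi => by
            have h3 : i ≠ κ := fun h' => by rw [h', hκ] at hi; exact lt_irrefl _ hi
            rw [Finsupp.add_apply, Finsupp.single_apply, if_neg (Ne.symm h3), add_zero]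
            exact α.2.2 i hi⟩) s
      left_inv := by
        intro α
        by_cases h : α.1 κ < e
        · simp [h]
        · simp only [h, dite_false, Sum.elim_inr]
          apply Subtype.ext
          exact tsub_add_cancel_of_le (Finsupp.single_le_iff.2 (not_lt.1 h))
      right_inv := by
        rintro (α | α)
        · have h : α.1 κ < e := α.2.2 κ (Nat.lt_succ_self k)
          simp [h]
        · have h : ¬ (α.1 + Finsupp.single κ e : Fin n →₀ ℕ) κ < e := by
            rw [Finsupp.add_apply, Finsupp.single_eq_same]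
            omega
          refine (dif_neg h).trans ?_
          congr 1
          apply Subtype.ext
          exact add_tsub_cancel_right _ _ }
  have := Nat.card_congr e1
  rw [Nat.card_sum] at this
  exact this.symm

theorem cnt_zero (e j : ℕ) : cnt n e 0 j = Fintype.card (Exps n j) := by
  rw [cnt, ← Nat.card_eq_fintype_card]
  exact Nat.card_congr (Equiv.subtypeEquivRight fun α => by simp)

theorem cnt_lt (e k j : ℕ) (hj : j < e) : cnt n e k j = Fintype.card (Exps n j) := by
  rw [cnt, ← Nat.card_eq_fintype_card]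
  refine Nat.card_congr (Equiv.subtypeEquivRight fun α => ?_)
  constructor
  · exact fun h => h.1
  · refine fun h => ⟨h, fun i _ => lt_of_le_of_lt ?_ hj⟩
    rw [← h]
    exact Finsupp.le_degree i α

theorem cnt_top (e : ℕ) (he : 1 ≤ e) : cnt n e n (n * (e - 1)) = 1 := by
  rw [cnt, Nat.card_eq_one_iff_unique]
  refine ⟨⟨fun a b => ?_⟩, ⟨⟨Finsupp.equivFunOnFinite.symm fun _ => e - 1, ?_, ?_⟩⟩⟩
  · have key : ∀ a : Ex n e n (n * (e - 1)), ∀ i, a.1 i = e - 1 := by
      intro a i
      have h1 : ∀ i, a.1 i ≤ e - 1 := fun i => Nat.le_sub_one_of_lt (a.2.2 i i.2)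
      have h2 : ∑ i, a.1 i = ∑ i : Fin n, (e - 1) := by
        rw [Finset.sum_const, Finset.card_univ, Fintype.card_fin, smul_eq_mul,
          ← Finsupp.degree_eq_sum]
        exact a.2.1
      exact ((Finset.sum_eq_sum_iff_of_le fun i _ => h1 i).1 h2) i (Finset.mem_univ i)
    apply Subtype.ext
    ext i
    rw [key a i, key b i]
  · rw [Finsupp.degree_eq_sum]
    simp
  · intro i _
    show e - 1 < e
    omega

/-- the graded piece of the ideal generated by the first `k` forms -/
noncomputable def W (x : Fin n → MvPolynomial (Fin n) ℂ) (k j : ℕ) :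
    Submodule ℂ (MvPolynomial (Fin n) ℂ) :=
  homogeneousSubmodule (Fin n) ℂ j ⊓
    (Ideal.span (x '' {i | i.val < k})).restrictScalars ℂ

theorem mem_W {x : Fin n → MvPolynomial (Fin n) ℂ} {k j : ℕ} {y : MvPolynomial (Fin n) ℂ} :
    y ∈ W x k j ↔ y.IsHomogeneous j ∧ y ∈ Ideal.span (x '' {i | i.val < k}) := by
  rw [W, Submodule.mem_inf]
  rfl

theorem span_image_eq_idl (x : Fin n → MvPolynomial (Fin n) ℂ) (s : Set (Fin n)) :
    Ideal.span (x '' s) = idl (fun i : s => x i) := by
  rw [idl, Set.image_eq_range]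

instance (j : ℕ) : Module.Finite ℂ (homogeneousSubmodule (Fin n) ℂ j) :=
  Module.Finite.iff_fg.2 (homogeneousSubmodule_fg (Fin n) ℂ j)

instance (x : Fin n → MvPolynomial (Fin n) ℂ) (k j : ℕ) : Module.Finite ℂ (W x k j) :=
  Submodule.finiteDimensional_of_le (inf_le_left : W x k j ≤ homogeneousSubmodule (Fin n) ℂ j)

theorem finrank_homog (j : ℕ) :
    Module.finrank ℂ (homogeneousSubmodule (Fin n) ℂ j) = Fintype.card (Exps n j) := by
  rw [homogeneousSubmodule_eq_finsupp_supported]
  rw [LinearEquiv.finrank_eq (AddMonoidAlgebra.supportedEquivFinsupp _)]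
  exact Module.finrank_finsupp_self (ι := Exps n j) ℂ

section count

variable (x : Fin n → MvPolynomial (Fin n) ℂ) {e : ℕ} (hx : ∀ i, (x i).IsHomogeneous e)

include hx in
theorem W_lt (k j : ℕ) (hj : j < e) : W x k j = ⊥ := by
  rw [eq_bot_iff]
  intro y hy
  rw [mem_W, span_image_eq_idl] at hy
  rw [Submodule.mem_bot]
  exact mem_idl_homog_lt (fun i : {i : Fin n | i.val < k} => x i) (fun i => hx i) hj y hy.1 hy.2

include hx in
theorem W_succ (k j : ℕ) (hk : k < n) :
    W x (k + 1) (j + e) = W x k (j + e) ⊔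
      (homogeneousSubmodule (Fin n) ℂ j).map (LinearMap.mulRight ℂ (x ⟨k, hk⟩)) := by
  apply le_antisymm
  · intro y hy
    rw [mem_W, span_image_eq_idl] at hy
    obtain ⟨c, hc1, hc2⟩ := mem_idl_homog (a := j)
      (fun i : {i : Fin n | i.val < k + 1} => x i) (fun i => hx i) rfl y hy.1 hy.2
    rw [Submodule.mem_sup]
    have hmem : (⟨k, hk⟩ : Fin n) ∈ {i : Fin n | i.val < k + 1} := Nat.lt_succ_self k
    refine ⟨y - c ⟨⟨k, hk⟩, hmem⟩ * x ⟨k, hk⟩, ?_, c ⟨⟨k, hk⟩, hmem⟩ * x ⟨k, hk⟩, ?_, by ring⟩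
    · rw [mem_W]
      refine ⟨hy.1.sub ((hc1 _).mul (hx _)), ?_⟩
      rw [hc2, ← Finset.add_sum_erase _ _ (Finset.mem_univ (⟨⟨k, hk⟩, hmem⟩ : {i : Fin n | i.val < k + 1})),
        add_sub_cancel_left]
      refine Ideal.sum_mem _ fun i hi => Ideal.mul_mem_left _ _ (Ideal.subset_span ⟨i.1, ?_, rfl⟩)
      have h1 := Finset.ne_of_mem_erase hi
      have h2 : i.1.val < k + 1 := i.2
      have h3 : i.1.val ≠ k := fun h => h1 (Subtype.ext (Fin.ext h))
      show i.1.val < k
      omega
    · exact ⟨c _, (hc1 _), rfl⟩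
  · rw [sup_le_iff]
    constructor
    · intro y hy
      rw [mem_W] at hy ⊢
      exact ⟨hy.1, Ideal.span_mono (Set.image_mono fun i hi => Nat.lt_succ_of_lt hi) hy.2⟩
    · rintro _ ⟨v, hv, rfl⟩
      rw [mem_W]
      exact ⟨IsHomogeneous.mul hv (hx _), Ideal.mul_mem_left _ _
        (Ideal.subset_span ⟨⟨k, hk⟩, Nat.lt_succ_self k, rfl⟩)⟩

variable (hreg : ∀ k : Fin n, ∀ y, y * x k ∈ Ideal.span (x '' {j | j < k}) →
        y ∈ Ideal.span (x '' {j | j < k}))

include hx hreg in
theorem W_inf (k j : ℕ) (hk : k < n) :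
    W x k (j + e) ⊓ (homogeneousSubmodule (Fin n) ℂ j).map (LinearMap.mulRight ℂ (x ⟨k, hk⟩)) =
      (W x k j).map (LinearMap.mulRight ℂ (x ⟨k, hk⟩)) := by
  apply le_antisymm
  · rintro _ ⟨h1, v, hv, rfl⟩
    refine ⟨v, ?_, rfl⟩
    rw [SetLike.mem_coe, mem_W] at h1
    rw [SetLike.mem_coe, mem_W]
    exact ⟨hv, hreg ⟨k, hk⟩ v h1.2⟩
  · rintro _ ⟨v, hv, rfl⟩
    rw [SetLike.mem_coe, mem_W] at hv
    refine ⟨?_, v, hv.1, rfl⟩
    rw [SetLike.mem_coe, mem_W]
    exact ⟨hv.1.mul (hx _), Ideal.mul_mem_right _ _ hv.2⟩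

include hx hreg in
theorem x_ne_zero (he : 1 ≤ e) (k : Fin n) : x k ≠ 0 := by
  intro h
  have h1 := hreg k 1 (by rw [h, mul_zero]; exact Ideal.zero_mem _)
  rw [span_image_eq_idl] at h1
  exact one_ne_zero (mem_idl_homog_lt (fun i : {i : Fin n | i < k} => x i) (fun i => hx i)
    (k := 0) (by omega) 1
    (isHomogeneous_one _ _) h1)

include hx hreg in
theorem finrank_W (he : 1 ≤ e) (k : ℕ) : k ≤ n → ∀ j,
    Module.finrank ℂ (W x k j) + cnt n e k j = Fintype.card (Exps n j) := by
  induction k with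
  | zero =>
    intro _ j
    have : W x 0 j = ⊥ := by
      rw [eq_bot_iff]
      intro y hy
      rw [mem_W] at hy
      have h1 : (x '' {i : Fin n | i.val < 0}) = ∅ := by
        rw [Set.image_eq_empty]
        ext i
        simp
      rw [h1, Ideal.span_empty] at hy
      exact hy.2
    rw [this, finrank_bot, zero_add, cnt_zero]
  | succ k ih =>
    intro hk j
    by_cases hj : j < e
    · rw [W_lt x hx (k + 1) j hj, finrank_bot, zero_add, cnt_lt e _ j hj]
    · obtain ⟨j', rfl⟩ := Nat.exists_eq_add_of_le (not_lt.1 hj)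
      rw [add_comm e j']
      have hk' : k < n := hk
      have h1 := Submodule.finrank_sup_add_finrank_inf_eq (W x k (j' + e))
        ((homogeneousSubmodule (Fin n) ℂ j').map (LinearMap.mulRight ℂ (x ⟨k, hk'⟩)))
      rw [← W_succ x hx k j' hk', W_inf x hx hreg k j' hk'] at h1
      have hinj : Function.Injective (LinearMap.mulRight ℂ (x ⟨k, hk'⟩)) := by
        intro a b hab
        exact mul_right_cancel₀ (x_ne_zero x hx hreg he _) hab
      rw [← LinearEquiv.finrank_eq (Submodule.equivMapOfInjective _ hinj _),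
        ← LinearEquiv.finrank_eq (Submodule.equivMapOfInjective _ hinj _), finrank_homog] at h1
      have h2 := ih (by omega) (j' + e)
      have h3 := ih (by omega) j'
      have h4 := cnt_succ (n := n) e k j' hk'
      omega

end count

end Pool.Agent.K1H4.Disc
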