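import Pool.Agent.K1H4.Disc.Wiebe

set_option autoImplicit false

/-! # Homogeneous elements of ideals generated by forms, and determinants of complete
intersections -/

namespace Pool.Agent.K1H4.Disc

open MvPolynomial Matrix

section hom

variable {B : Type*} [CommRing B] {σ : Type*}

theorem hcomp_mul {a b k : ℕ} (g f : MvPolynomial σ B) (hf : f.IsHomogeneous b) (hk : k = a + b) :
    homogeneousComponent k (g * f) = homogeneousComponent a g * f := by
  subst hk
  conv_lhs => rw [← sum_homogeneousComponent g, Finset.sum_mul, map_sum]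
  have h : ∀ i ∈ Finset.range (g.totalDegree + 1),
      homogeneousComponent (a + b) (homogeneousComponent i g * f) =
        if i = a then homogeneousComponent a g * f else 0 := by
    intro i _
    have h1 : (homogeneousComponent i g * f) ∈ homogeneousSubmodule σ B (i + b) :=
      (homogeneousComponent_isHomogeneous i g).mul hf
    rw [homogeneousComponent_of_mem h1]
    by_cases hi : i = a
    · subst hi; simp
    · rw [if_neg (by omega), if_neg hi]
  rw [Finset.sum_congr rfl h, Finset.sum_ite_eq']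
  split_ifs with h1
  · rfl
  · rw [Finset.mem_range, not_lt] at h1
    rw [homogeneousComponent_eq_zero _ _ (by omega), zero_mul]

theorem hcomp_mul_lt {b k : ℕ} (g f : MvPolynomial σ B) (hf : f.IsHomogeneous b) (hk : k < b) :
    homogeneousComponent k (g * f) = 0 := by
  conv_lhs => rw [← sum_homogeneousComponent g, Finset.sum_mul, map_sum]
  refine Finset.sum_eq_zero fun i _ => ?_
  have h1 : (homogeneousComponent i g * f) ∈ homogeneousSubmodule σ B (i + b) :=
    (homogeneousComponent_isHomogeneous i g).mul hf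
  rw [homogeneousComponent_of_mem h1, if_neg (by omega)]

theorem mem_idl_homog {ι : Type*} [Fintype ι] (g : ι → MvPolynomial σ B) {e a k : ℕ}
    (hg : ∀ i, (g i).IsHomogeneous e) (hk : k = a + e) (x : MvPolynomial σ B)
    (hx : x.IsHomogeneous k) (hm : x ∈ idl g) :
    ∃ c : ι → MvPolynomial σ B, (∀ i, (c i).IsHomogeneous a) ∧ x = ∑ i, c i * g i := by
  obtain ⟨c, hc⟩ := (Ideal.mem_span_range_iff_exists_fun).1 hm
  refine ⟨fun i => homogeneousComponent a (c i), fun i => homogeneousComponent_isHomogeneous _ _, ?_⟩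
  rw [← homogeneousComponent_eq_self hx, ← hc, map_sum]
  exact Finset.sum_congr rfl fun i _ => hcomp_mul _ _ (hg i) hk

theorem mem_idl_homog_lt {ι : Type*} [Fintype ι] (g : ι → MvPolynomial σ B) {e k : ℕ}
    (hg : ∀ i, (g i).IsHomogeneous e) (hk : k < e) (x : MvPolynomial σ B)
    (hx : x.IsHomogeneous k) (hm : x ∈ idl g) : x = 0 := by
  obtain ⟨c, hc⟩ := (Ideal.mem_span_range_iff_exists_fun).1 hm
  rw [← homogeneousComponent_eq_self hx, ← hc, map_sum]
  exact Finset.sum_eq_zero fun i _ => hcomp_mul_lt _ _ (hg i) hk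

end hom

section ci

variable {n : ℕ}

/-- a power of each variable lies in the ideal of forms without common zero -/
theorem exists_pow_mem (g : Fin n → MvPolynomial (Fin n) ℂ)
    (h0 : ∀ z : Fin n → ℂ, (∀ i, eval z (g i) = 0) → z = 0) (N : ℕ) :
    ∃ M, N ≤ M ∧ ∀ i, (X i : MvPolynomial (Fin n) ℂ) ^ M ∈ idl g := by
  have h1 : ∀ i, (X i : MvPolynomial (Fin n) ℂ) ∈ (idl g).radical := by
    intro i
    rw [← vanishingIdeal_zeroLocus_eq_radical (K := ℂ), mem_vanishingIdeal_iff]
    intro z hz
    have hz0 : z = 0 := by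
      refine h0 z fun j => ?_
      have := (mem_zeroLocus_iff.1 hz) (g j) (mem_idl g j)
      simpa [aeval_eq_eval] using this
    rw [hz0]
    simp
  choose m hm using h1
  refine ⟨N + ∑ i, m i, Nat.le_add_right _ _, fun i => ?_⟩
  have hle : m i ≤ N + ∑ i, m i :=
    (Finset.single_le_sum (fun j _ => Nat.zero_le _) (Finset.mem_univ i)).trans
      (Nat.le_add_left _ _)
  obtain ⟨c, hc⟩ := Nat.exists_eq_add_of_le hle
  rw [hc, pow_add]
  exact Ideal.mul_mem_right _ _ (hm i)

/-- the coefficient of `∏ X_i ^ (M-1)` vanishes on the ideal `(X_i ^ M)` -/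
theorem coeff_zero_of_mem_pow {B : Type*} [CommRing B] (M : ℕ)
    (x : MvPolynomial (Fin n) B)
    (hx : x ∈ idl (fun i : Fin n => (X i : MvPolynomial (Fin n) B) ^ M)) (α : Fin n →₀ ℕ)
    (hα : ∀ i, α i < M) : coeff α x = 0 := by
  obtain ⟨c, hc⟩ := (Ideal.mem_span_range_iff_exists_fun).1 hx
  rw [← hc, coeff_sum]
  refine Finset.sum_eq_zero fun i _ => ?_
  rw [X_pow_eq_monomial, coeff_mul_monomial']
  rw [if_neg]
  intro h
  have := h i
  rw [Finsupp.single_eq_same] at this
  exact absurd (hα i) (not_lt.2 this)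

/-- **Determinants of presentation matrices are not in the ideal.** -/
theorem det_notMem (g : Fin n → MvPolynomial (Fin n) ℂ) {e : ℕ} (he : 1 ≤ e)
    (hg : ∀ i, (g i).IsHomogeneous e)
    (h0 : ∀ z : Fin n → ℂ, (∀ i, eval z (g i) = 0) → z = 0)
    (a : Matrix (Fin n) (Fin n) (MvPolynomial (Fin n) ℂ))
    (ha : ∀ i j, (a i j).IsHomogeneous (e - 1)) (hag : a *ᵥ X = g) : a.det ∉ idl g := by
  intro hdet
  obtain ⟨M, hM, hMi⟩ := exists_pow_mem g h0 e
  have hb : ∀ i, ∃ c : Fin n → MvPolynomial (Fin n) ℂ, (∀ j, (c j).IsHomogeneous (M - e)) ∧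
      (X i : MvPolynomial (Fin n) ℂ) ^ M = ∑ j, c j * g j := fun i =>
    mem_idl_homog g hg (k := M) (a := M - e) (by omega) _
      (by simpa using (isHomogeneous_X ℂ i).pow M) (hMi i)
  choose b hb1 hb2 using hb
  set b' : Matrix (Fin n) (Fin n) (MvPolynomial (Fin n) ℂ) := Matrix.of b with hb'
  set w : Fin n → MvPolynomial (Fin n) ℂ := fun i => X i ^ M with hw
  have hbw : b' *ᵥ g = w := by
    funext i
    simp only [mulVec, dotProduct, hb', hw, Matrix.of_apply]
    exact (hb2 i).symm
  have hba : (b' * a) *ᵥ X = w := by rw [← mulVec_mulVec, hag, hbw]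
  have hdg : (Matrix.diagonal fun i : Fin n => (X i : MvPolynomial (Fin n) ℂ) ^ (M - 1)) *ᵥ X = w := by
    funext i
    rw [mulVec_diagonal, hw]
    rw [← pow_succ, Nat.sub_add_cancel (by omega)]
  have h1 := det_sub_det_mem (b' * a)
    (Matrix.diagonal fun i : Fin n => (X i : MvPolynomial (Fin n) ℂ) ^ (M - 1)) (M - 1)
    (fun i j => by
      rw [Matrix.mul_apply]
      refine IsHomogeneous.sum _ _ _ fun k _ => ?_
      have := (hb1 i k).mul (ha k j)
      rwa [show M - e + (e - 1) = M - 1 by omega] at this)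
    (fun i j => by
      by_cases hij : i = j
      · subst hij
        rw [Matrix.diagonal_apply_eq]
        simpa using (isHomogeneous_X ℂ i).pow (M - 1)
      · rw [Matrix.diagonal_apply_ne _ hij]
        exact isHomogeneous_zero _ _ _)
    (hba.trans hdg.symm)
  rw [hba, det_mul, det_diagonal] at h1
  have h2 : b'.det * a.det ∈ idl w := by
    have h3 : ∀ y ∈ idl g, b'.det * y ∈ idl w := by
      intro y hy
      obtain ⟨c, hc⟩ := (Ideal.mem_span_range_iff_exists_fun).1 hy
      rw [← hc, Finset.mul_sum]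
      refine Ideal.sum_mem _ fun i _ => ?_
      have h4 : b'.det * g i = ∑ j, b'.adjugate i j * w j := by
        have : (b'.adjugate *ᵥ (b' *ᵥ g)) i = b'.det * g i := by
          rw [mulVec_mulVec, adjugate_mul, smul_mulVec, one_mulVec]
          rfl
        rw [← this, hbw]
        rfl
      have h5 : b'.det * (c i * g i) = c i * ∑ j, b'.adjugate i j * w j := by
        rw [← h4]; ring
      rw [h5]
      exact Ideal.mul_mem_left _ _ (Ideal.sum_mem _ fun j _ =>
        Ideal.mul_mem_left _ _ (mem_idl w j))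
    exact h3 _ hdet
  have h3 : (∏ i : Fin n, (X i : MvPolynomial (Fin n) ℂ) ^ (M - 1)) ∈ idl w := by
    have := Ideal.sub_mem _ h2 h1
    rwa [sub_sub_cancel] at this
  have h4 := coeff_zero_of_mem_pow (B := ℂ) M _ h3
    (Finsupp.equivFunOnFinite.symm fun _ => M - 1) (fun i => by
      show M - 1 < M
      omega)
  have h5 : (∏ i : Fin n, (X i : MvPolynomial (Fin n) ℂ) ^ (M - 1)) =
      monomial (Finsupp.equivFunOnFinite.symm fun _ => M - 1) 1 := by
    rw [monomial_eq, C_1, one_mul, Finsupp.prod_fintype _ _ (fun i => pow_zero _)]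
    rfl
  rw [h5, coeff_monomial, if_pos rfl] at h4
  exact one_ne_zero h4

end ci

end Pool.Agent.K1H4.Disc
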