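import Pool.Agent.K1H4.Disc.Fam

set_option autoImplicit false

/-! # Restriction of polynomial functions to lines of forms -/

namespace Pool.Agent.K1H4.Disc

open MvPolynomial Matrix

section sdeg

variable {n : ℕ}

/-- all coefficients have degree at most `k` -/
def SD (k : ℕ) (f : MvPolynomial (Fin n) (Polynomial ℂ)) : Prop :=
  ∀ α, (coeff α f).natDegree ≤ k

theorem SD.mono {k l : ℕ} (h : k ≤ l) {f : MvPolynomial (Fin n) (Polynomial ℂ)} (hf : SD k f) :
    SD l f := fun α => (hf α).trans h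

theorem SD.add {k : ℕ} {f g : MvPolynomial (Fin n) (Polynomial ℂ)} (hf : SD k f) (hg : SD k g) :
    SD k (f + g) := fun α => by
  rw [coeff_add]
  exact (Polynomial.natDegree_add_le _ _).trans (max_le (hf α) (hg α))

theorem SD.neg {k : ℕ} {f : MvPolynomial (Fin n) (Polynomial ℂ)} (hf : SD k f) :
    SD k (-f) := fun α => by
  rw [coeff_neg, Polynomial.natDegree_neg]
  exact hf α

theorem SD.sum {ι : Type*} (s : Finset ι) {k : ℕ} {f : ι → MvPolynomial (Fin n) (Polynomial ℂ)}
    (hf : ∀ i ∈ s, SD k (f i)) : SD k (∑ i ∈ s, f i) := fun α => by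
  rw [coeff_sum]
  exact Polynomial.natDegree_sum_le_of_forall_le _ _ fun i hi => hf i hi α

theorem SD.mul {k l : ℕ} {f g : MvPolynomial (Fin n) (Polynomial ℂ)} (hf : SD k f) (hg : SD l g) :
    SD (k + l) (f * g) := fun α => by
  classical
  rw [coeff_mul]
  exact Polynomial.natDegree_sum_le_of_forall_le _ _ fun i _ =>
    Polynomial.natDegree_mul_le.trans (add_le_add (hf _) (hg _))

theorem SD.prod {ι : Type*} (s : Finset ι) {k : ι → ℕ}
    {f : ι → MvPolynomial (Fin n) (Polynomial ℂ)}
    (hf : ∀ i ∈ s, SD (k i) (f i)) : SD (∑ i ∈ s, k i) (∏ i ∈ s, f i) := by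
  classical
  induction s using Finset.induction_on with
  | empty =>
    intro α
    rw [Finset.prod_empty, coeff_one]
    split_ifs <;> simp
  | insert a s ha ih =>
    rw [Finset.sum_insert ha, Finset.prod_insert ha]
    exact (hf a (Finset.mem_insert_self _ _)).mul
      (ih fun i hi => hf i (Finset.mem_insert_of_mem hi))

theorem SD.pderiv {k : ℕ} {f : MvPolynomial (Fin n) (Polynomial ℂ)} (hf : SD k f) (i : Fin n) :
    SD k (MvPolynomial.pderiv i f) := fun α => by
  rw [coeff_pderiv]
  refine Polynomial.natDegree_mul_le.trans ?_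
  have : (((α i : ℕ) : Polynomial ℂ) + 1).natDegree = 0 := by
    rw [show (((α i : ℕ) : Polynomial ℂ) + 1) = ((α i + 1 : ℕ) : Polynomial ℂ) by push_cast; rfl]
    exact Polynomial.natDegree_natCast _
  rw [this, add_zero]
  exact hf _

theorem SD_map_C (f : MvPolynomial (Fin n) ℂ) : SD 0 (map Polynomial.C f) := fun α => by
  rw [coeff_map, Polynomial.natDegree_C]

theorem SD_monomial (α : Fin n →₀ ℕ) : SD 0 (monomial α (1 : Polynomial ℂ)) := fun β => by
  classical
  rw [coeff_monomial]
  split_ifs <;> simp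

theorem SD.smul_sign {ι : Type*} [Fintype ι] [DecidableEq ι] {k : ℕ}
    {f : MvPolynomial (Fin n) (Polynomial ℂ)} (hf : SD k f) (π : Equiv.Perm ι) :
    SD k (Equiv.Perm.sign π • f) := by
  rcases Int.units_eq_one_or (Equiv.Perm.sign π) with h | h
  · rw [h, one_smul]; exact hf
  · rw [h, Units.neg_smul, one_smul]; exact hf.neg

theorem natDegree_det_le {ι : Type*} [Fintype ι] [DecidableEq ι] (M : Matrix ι ι (Polynomial ℂ))
    (k : ι → ℕ) (hM : ∀ i j, (M i j).natDegree ≤ k i) : M.det.natDegree ≤ ∑ i, k i := by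
  rw [Matrix.det_apply]
  refine Polynomial.natDegree_sum_le_of_forall_le _ _ fun π _ => ?_
  have h1 : (∏ i, M (π i) i).natDegree ≤ ∑ i, k i := by
    refine (Polynomial.natDegree_prod_le _ _).trans ?_
    rw [← Equiv.sum_comp π k]
    exact Finset.sum_le_sum fun i _ => hM _ _
  rcases Int.units_eq_one_or (Equiv.Perm.sign π) with h | h
  · rw [h, one_smul]; exact h1
  · rw [h, Units.neg_smul, one_smul, Polynomial.natDegree_neg]; exact h1

end sdeg

section line

variable {n d : ℕ}

theorem sum_coeff {B : Type*} [CommRing B] {f : MvPolynomial (Fin n) B} (hf : f.IsHomogeneous d) :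
    ∑ α : Exps n d, monomial α.1 (coeff α.1 f) = f := by
  ext m
  rw [coeff_sum]
  by_cases hm : m.degree = d
  · rw [Finset.sum_eq_single (⟨m, hm⟩ : Exps n d)]
    · rw [coeff_monomial, if_pos rfl]
    · intro β _ hβ
      rw [coeff_monomial, if_neg fun h => hβ (Subtype.ext h)]
    · intro h; exact absurd (Finset.mem_univ _) h
  · rw [hf.coeff_eq_zero hm]
    refine Finset.sum_eq_zero fun β _ => ?_
    rw [coeff_monomial, if_neg]
    intro h
    exact hm (h ▸ β.2)

/-- the restriction of a polynomial function to a curve of forms -/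
noncomputable def restr (F : MvPolynomial (Fin n) (Polynomial ℂ)) :
    PolyFun n d →ₐ[ℂ] Polynomial ℂ :=
  aeval (fun α : Exps n d => coeff α.1 F)

theorem eval_restr (F : MvPolynomial (Fin n) (Polynomial ℂ)) (P : PolyFun n d) (s : ℂ) :
    (restr F P).eval s = value P (map (Polynomial.evalRingHom s) F) := by
  rw [restr, value]
  simp only [coeff_map]
  induction P using MvPolynomial.induction_on with
  | C a => simp
  | add p q hp hq => rw [map_add, Polynomial.eval_add, hp, hq, map_add]
  | mul_X p i hp => rw [map_mul, Polynomial.eval_mul, hp, map_mul, aeval_X, eval_X]; rfl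

theorem restr_detH {F : MvPolynomial (Fin n) (Polynomial ℂ)} (hF : F.IsHomogeneous d)
    (α₀ : Exps n (n * (d - 2))) (σ : Exps n (n * (d - 2)) → Idx n d) :
    restr F (detH α₀ σ) = (mat F (hess F) α₀ σ).det := by
  have h1 : map ((restr (d := d) F : PolyFun n d →ₐ[ℂ] Polynomial ℂ) : PolyFun n d →+* Polynomial ℂ)
      (gen n d) = F := by
    rw [gen, map_sum]
    conv_rhs => rw [← sum_coeff hF]
    refine Finset.sum_congr rfl fun α _ => ?_
    rw [map_monomial]
    congr 1
    exact aeval_X _ α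
  have h2 : restr F (detH α₀ σ) =
      ((restr (d := d) F : PolyFun n d →ₐ[ℂ] Polynomial ℂ) : PolyFun n d →+* Polynomial ℂ)
        (detH α₀ σ) := rfl
  rw [h2, detH, RingHom.map_det, mat_map, ← hess_map, h1]

/-- the pencil -/
noncomputable def pen (d : ℕ) (i₀ : Fin n) (c : Fin n → ℂ) : MvPolynomial (Fin n) (Polynomial ℂ) :=
  fam d i₀ (fun j => Polynomial.C (c j)) Polynomial.X

theorem eval_pen (i₀ : Fin n) (c : Fin n → ℂ) (s : ℂ) (P : PolyFun n d) :
    (restr (pen d i₀ c) P).eval s = value P (fam d i₀ c s) := by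
  rw [eval_restr, pen, map_fam]
  simp

theorem pen_eq (i₀ : Fin n) (c : Fin n → ℂ) :
    pen d i₀ c = C Polynomial.X * X i₀ ^ d + MvPolynomial.map Polynomial.C (fam d i₀ c 0) := by
  rw [map_fam, pen, fam, fam]
  simp

theorem pderiv_pen_ne (i₀ : Fin n) (c : Fin n → ℂ) (j : Fin n) (hj : j ≠ i₀) :
    pderiv j (pen d i₀ c) = MvPolynomial.map Polynomial.C (pderiv j (fam d i₀ c 0)) := by
  rw [pen_eq, map_add, pderiv_C_mul, pderiv_pow, pderiv_X_of_ne (Ne.symm hj), pderiv_map]
  simp

theorem SD_pen (i₀ : Fin n) (c : Fin n → ℂ) : SD 1 (pen d i₀ c) := by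
  rw [pen_eq]
  refine SD.add ?_ ((SD_map_C _).mono zero_le_one)
  intro α
  rw [coeff_C_mul, coeff_X_pow]
  split_ifs <;> simp

theorem SD_hess_pen (i₀ : Fin n) (c : Fin n → ℂ) : SD 1 (hess (pen d i₀ c)) := by
  classical
  rw [hess, Matrix.det_apply]
  refine SD.sum _ fun π _ => SD.smul_sign ?_ π
  have h1 : ∀ a b : Fin n, SD (if b = i₀ then (if a = i₀ then 1 else 0) else 0)
      ((Matrix.of fun i j => pderiv i (pderiv j (pen d i₀ c))) a b) := by
    intro a b
    rw [Matrix.of_apply]
    by_cases hb : b = i₀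
    · by_cases ha : a = i₀
      · rw [if_pos hb, if_pos ha]
        exact ((SD_pen i₀ c).pderiv b).pderiv a
      · rw [if_pos hb, if_neg ha, pderiv_pderiv_comm, pderiv_pen_ne _ _ _ ha]
        exact (SD_map_C _).pderiv b
    · rw [if_neg hb, pderiv_pen_ne _ _ _ hb]
      exact (SD_map_C _).pderiv a
  refine (SD.prod _ fun i _ => h1 (π i) i).mono ?_
  rw [Finset.sum_ite_eq' Finset.univ i₀ (fun i => if π i = i₀ then 1 else 0),
    if_pos (Finset.mem_univ _)]
  split_ifs <;> omega

theorem jj_top (hd : 3 ≤ d) (i₀ : Fin n) : jj i₀ (top n d) = i₀ := by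
  rw [jj, dif_neg]
  rintro ⟨j, _, hj⟩
  have : d - 1 ≤ d - 2 := hj
  omega

/-- **Degree bound along the pencil.** -/
theorem natDegree_restr_le (hd : 3 ≤ d) (i₀ : Fin n) (c : Fin n → ℂ) :
    (restr (pen d i₀ c) (detH (top n d) (sig i₀))).natDegree ≤ (d - 1) ^ (n - 1) := by
  classical
  rw [restr_detH (F := pen d i₀ c) (fam_isHomogeneous (by omega) _ _ _)]
  refine (natDegree_det_le _ (fun γ => if jj i₀ γ = i₀ then 1 else 0) ?_).trans ?_
  · intro γ α
    rw [mat, Matrix.of_apply]
    split_ifs with h1 h2 h2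
    · exact SD_hess_pen i₀ c _
    · exact absurd (h1 ▸ jj_top hd i₀) h2
    · refine ((SD_monomial _).mul ((SD_pen i₀ c).pderiv _) α.1).trans ?_
      omega
    · have h3 : SD 0 (rowP (pen d i₀ c) (sig i₀ γ)) := by
        rw [rowP, pderiv_pen_ne _ _ _ (by rw [sig_snd]; exact h2)]
        exact (SD_monomial _).mul (SD_map_C _)
      exact h3 _
  · rw [← Finset.card_filter]
    exact card_jj hd i₀

end line

end Pool.Agent.K1H4.Disc
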