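import Pool.Agent.K1H4.Disc.Line

set_option autoImplicit false

/-! # The discriminant does not divide the determinants twice -/

namespace Pool.Agent.K1H4.Disc

open MvPolynomial Matrix

variable {n d : ℕ}

/-- the index set of critical points -/
abbrev Zt (n d : ℕ) (i₀ : Fin n) : Type := {j : Fin n // j ≠ i₀} → rootsOfUnity (d - 1) ℂ

theorem card_Zt (hd : 3 ≤ d) (i₀ : Fin n) : Nat.card (Zt n d i₀) = (d - 1) ^ (n - 1) := by
  have : NeZero (d - 1) := ⟨by omega⟩
  rw [Nat.card_fun, Complex.card_rootsOfUnity, Nat.card_eq_fintype_card,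
    Fintype.card_subtype_compl, Fintype.card_fin, Fintype.card_subtype_eq]

instance (i₀ : Fin n) [NeZero (d - 1)] : Finite (Zt n d i₀) := inferInstance

/-- the critical value -/
noncomputable def cv (i₀ : Fin n) (l : Fin n → ℂ) (ζ : Zt n d i₀) : ℂ :=
  ((d - 1 : ℕ) : ℂ) * ∑ j : {j : Fin n // j ≠ i₀}, l j.1 * ((ζ j : ℂˣ) : ℂ)

theorem exists_injective (hd : 3 ≤ d) (i₀ : Fin n) :
    ∃ l : Fin n → ℂ, Function.Injective (cv (d := d) i₀ l) := by
  classical
  have : NeZero (d - 1) := ⟨by omega⟩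
  have hd1 : ((d - 1 : ℕ) : ℂ) ≠ 0 := by rw [Nat.cast_ne_zero]; omega
  let ι := {p : Zt n d i₀ × Zt n d i₀ // p.1 ≠ p.2}
  let H : ι → Submodule ℂ (Fin n → ℂ) := fun p =>
    LinearMap.ker (∑ j : {j : Fin n // j ≠ i₀},
      ((((p.1.1 j : ℂˣ) : ℂ) - ((p.1.2 j : ℂˣ) : ℂ)) • (LinearMap.proj j.1 :
        (Fin n → ℂ) →ₗ[ℂ] ℂ)))
  by_contra! hcon
  have hcov : ⋃ p, (H p : Set (Fin n → ℂ)) = Set.univ := by
    rw [Set.eq_univ_iff_forall]
    intro l
    have h1 := hcon l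
    rw [Function.Injective] at h1
    push Not at h1
    obtain ⟨a, b, hab, hne⟩ := h1
    rw [Set.mem_iUnion]
    refine ⟨⟨(a, b), hne⟩, ?_⟩
    have h2 : ∑ j : {j : Fin n // j ≠ i₀}, l j.1 * ((a j : ℂˣ) : ℂ) =
        ∑ j : {j : Fin n // j ≠ i₀}, l j.1 * ((b j : ℂˣ) : ℂ) := mul_left_cancel₀ hd1 hab
    show l ∈ LinearMap.ker _
    rw [LinearMap.mem_ker, LinearMap.sum_apply]
    rw [← sub_eq_zero, ← Finset.sum_sub_distrib] at h2
    rw [← h2]
    refine Finset.sum_congr rfl fun j _ => ?_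
    rw [LinearMap.smul_apply, LinearMap.proj_apply, smul_eq_mul]
    ring
  obtain ⟨⟨⟨a, b⟩, hne⟩, hp⟩ := Subspace.exists_eq_top_of_iUnion_eq_univ hcov
  apply hne
  funext j
  have h1 : (Pi.single j.1 1 : Fin n → ℂ) ∈ H ⟨(a, b), hne⟩ := by rw [hp]; trivial
  have h2 : ∑ i : {i : Fin n // i ≠ i₀}, ((((a i : ℂˣ) : ℂ) - ((b i : ℂˣ) : ℂ)) •
      (LinearMap.proj i.1 : (Fin n → ℂ) →ₗ[ℂ] ℂ)) (Pi.single j.1 1 : Fin n → ℂ) = 0 := by
    rw [← LinearMap.sum_apply]
    exact h1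
  rw [Finset.sum_eq_single j] at h2
  · rw [LinearMap.smul_apply, LinearMap.proj_apply, Pi.single_eq_same, smul_eq_mul, mul_one,
      sub_eq_zero] at h2
    exact Subtype.ext (Units.ext h2)
  · intro i _ hi
    rw [LinearMap.smul_apply, LinearMap.proj_apply, Pi.single_eq_of_ne, smul_zero]
    exact fun h => hi (Subtype.ext h)
  · intro h; exact absurd (Finset.mem_univ _) h

theorem exists_good (hd : 3 ≤ d) (i₀ : Fin n) :
    ∃ κ : Fin n → ℂ, Function.Injective (cv (d := d) i₀ fun j => κ j ^ d) ∧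
      value (detH (top n d) (sig i₀)) (fam d i₀ (fun j => κ j ^ (d - 1)) 1) ≠ 0 := by
  obtain ⟨l, hl⟩ := exists_injective (n := n) hd i₀
  choose k hk using fun j => IsAlgClosed.exists_pow_nat_eq (l j) (n := d) (by omega)
  -- the curve of forms `b ↦ fam ((b k_j) ^ (d-1)) 1`
  set F : MvPolynomial (Fin n) (Polynomial ℂ) :=
    fam d i₀ (fun j => (Polynomial.X * Polynomial.C (k j)) ^ (d - 1)) 1 with hF
  have hev : ∀ b : ℂ, (restr F (detH (top n d) (sig i₀))).eval b =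
      value (detH (top n d) (sig i₀)) (fam d i₀ (fun j => (b * k j) ^ (d - 1)) 1) := by
    intro b
    rw [eval_restr, hF, map_fam]
    congr 2
    · funext j
      rw [map_pow, map_mul, Polynomial.coe_evalRingHom, Polynomial.eval_X, Polynomial.eval_C]
    · exact map_one _
  have h0 : (restr F (detH (top n d) (sig i₀))).eval 0 ≠ 0 := by
    rw [hev]
    have h1 : (fun j => (0 * k j) ^ (d - 1)) = (0 : Fin n → ℂ) := by
      funext j
      rw [zero_mul, zero_pow (by omega)]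
      rfl
    rw [h1, value_detH _ _ (fam_isHomogeneous (by omega) _ _ _)]
    exact det_fer_ne_zero hd i₀
  have h1 : restr F (detH (top n d) (sig i₀)) * Polynomial.X ≠ 0 := by
    refine mul_ne_zero (fun h => h0 ?_) Polynomial.X_ne_zero
    rw [h, Polynomial.eval_zero]
  obtain ⟨b, hb⟩ : ∃ b, (restr F (detH (top n d) (sig i₀)) * Polynomial.X).eval b ≠ 0 := by
    by_contra! hcon
    exact h1 (Polynomial.funext fun b => by rw [hcon b, Polynomial.eval_zero])
  rw [Polynomial.eval_mul, Polynomial.eval_X, hev] at hb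
  refine ⟨fun j => b * k j, ?_, left_ne_zero_of_mul hb⟩
  have hb0 : b ≠ 0 := right_ne_zero_of_mul hb
  intro ζ ζ' h
  apply hl
  have h2 : ∀ ζ : Zt n d i₀, cv (d := d) i₀ (fun j => (b * k j) ^ d) ζ = b ^ d * cv i₀ l ζ := by
    intro ζ
    rw [cv, cv, mul_left_comm (b ^ d)]
    congr 1
    rw [Finset.mul_sum]
    refine Finset.sum_congr rfl fun j _ => ?_
    rw [mul_pow, hk]
    ring
  rw [h2, h2] at h
  exact mul_left_cancel₀ (pow_ne_zero _ hb0) h

theorem sq_not_dvd (hd : 3 ≤ d) (i₀ : Fin n) (Δ : PolyFun n d)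
    (hΔ : ∀ f : MvPolynomial (Fin n) ℂ, f.IsHomogeneous d →
      (value Δ f = 0 ↔ ¬ Nondegenerate f)) : ¬ Δ ^ 2 ∣ detH (top n d) (sig i₀) := by
  classical
  have : NeZero (d - 1) := ⟨by omega⟩
  rintro ⟨Q, hQ⟩
  obtain ⟨κ, hinj, hne⟩ := exists_good hd i₀
  set c : Fin n → ℂ := fun j => κ j ^ (d - 1) with hc
  set E := restr (pen d i₀ c) Δ with hE
  have hdeg := natDegree_restr_le hd i₀ c
  have hD0 : restr (pen d i₀ c) (detH (top n d) (sig i₀)) ≠ 0 := by
    intro h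
    apply hne
    rw [← eval_pen, h, Polynomial.eval_zero]
  have hfac : restr (pen d i₀ c) (detH (top n d) (sig i₀)) = E ^ 2 * restr (pen d i₀ c) Q := by
    rw [hQ, map_mul, map_pow]
  rw [hfac] at hD0 hdeg
  have hE0 : E ≠ 0 := fun h => hD0 (by rw [h]; ring)
  have hQ0 := right_ne_zero_of_mul hD0
  rw [Polynomial.natDegree_mul (pow_ne_zero _ hE0) hQ0, Polynomial.natDegree_pow] at hdeg
  have hroots : (d - 1) ^ (n - 1) ≤ E.natDegree := by
    have : Fintype (Zt n d i₀) := Fintype.ofFinite _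
    have h1 : (Finset.univ.image (cv (d := d) i₀ fun j => κ j ^ d)).card = (d - 1) ^ (n - 1) := by
      rw [Finset.card_image_of_injective _ hinj, Finset.card_univ, ← Nat.card_eq_fintype_card,
        card_Zt hd]
    rw [← h1]
    apply Polynomial.card_le_degree_of_subset_roots
    intro s hs
    rw [Finset.mem_val, Finset.mem_image] at hs
    obtain ⟨ζ, _, rfl⟩ := hs
    rw [Polynomial.mem_roots hE0, Polynomial.IsRoot, hE, eval_pen,
      hΔ _ (fam_isHomogeneous (by omega) _ _ _)]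
    refine fam_degenerate i₀ κ (fun j => if h : j ≠ i₀ then ((ζ ⟨j, h⟩ : ℂˣ) : ℂ) else 1)
      (by omega) ?_ _ ?_
    · intro j
      by_cases h : j ≠ i₀
      · simp only [dif_pos h]
        have := (ζ ⟨j, h⟩).2
        rw [mem_rootsOfUnity'] at this
        exact this
      · simp only [dif_neg h, one_pow]
    · rw [cv]
      congr 1
      have h3 : ∀ j : {j : Fin n // j ≠ i₀}, κ j.1 ^ d * ((ζ j : ℂˣ) : ℂ) =
          (fun j : Fin n => κ j ^ d * (if h : j ≠ i₀ then ((ζ ⟨j, h⟩ : ℂˣ) : ℂ) else 1)) j.1 := by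
        intro j
        simp only [dif_pos j.2]
      rw [Finset.sum_congr rfl fun j _ => h3 j]
      rw [← Finset.sum_subtype (Finset.univ.erase i₀) (fun j => by simp)
        (fun j : Fin n => κ j ^ d * (if h : j ≠ i₀ then ((ζ ⟨j, h⟩ : ℂˣ) : ℂ) else 1))]
  have hpos : 0 < (d - 1) ^ (n - 1) := pow_pos (by omega) _
  omega

end Pool.Agent.K1H4.Disc
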