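import Pool.Agent.K1H4.Disc.Hilb

set_option autoImplicit false

/-! # The top degree part of the Milnor algebra -/

namespace Pool.Agent.K1H4.Disc

open MvPolynomial Matrix

variable {n d : ℕ}

theorem pderiv_pderiv_comm {B : Type*} [CommRing B] (i j : Fin n) (f : MvPolynomial (Fin n) B) :
    pderiv i (pderiv j f) = pderiv j (pderiv i f) := by
  by_cases hij : i = j
  · rw [hij]
  · ext m
    rw [coeff_pderiv, coeff_pderiv, coeff_pderiv, coeff_pderiv]
    rw [show m + Finsupp.single i 1 + Finsupp.single j 1 = m + Finsupp.single j 1 +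
      Finsupp.single i 1 from add_right_comm _ _ _]
    rw [Finsupp.add_apply, Finsupp.add_apply, Finsupp.single_apply, Finsupp.single_apply,
      if_neg hij, if_neg (Ne.symm hij), add_zero, add_zero]
    ring

theorem hess_isHomogeneous {B : Type*} [CommRing B] {f : MvPolynomial (Fin n) B}
    (hf : f.IsHomogeneous d) : (hess f).IsHomogeneous (n * (d - 2)) := by
  rw [hess, Matrix.det_apply]
  refine IsHomogeneous.sum _ _ _ fun σ _ => ?_
  have h1 : (∏ i, (Matrix.of fun i j => pderiv i (pderiv j f)) (σ i) i).IsHomogeneous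
      (∑ i : Fin n, (d - 2)) := by
    refine IsHomogeneous.prod _ _ _ fun i _ => ?_
    have := (hf.pderiv (i := i)).pderiv (i := σ i)
    rwa [Nat.sub_sub] at this
  rw [Finset.sum_const, Finset.card_univ, Fintype.card_fin, smul_eq_mul] at h1
  rcases Int.units_eq_one_or (Equiv.Perm.sign σ) with h | h
  · rw [h, one_smul]; exact h1
  · rw [h, Units.neg_smul, one_smul]; exact h1.neg

theorem hess_notMem (hd : 3 ≤ d) {f : MvPolynomial (Fin n) ℂ} (hf : f.IsHomogeneous d)
    (hnd : Nondegenerate f) : hess f ∉ jac f := by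
  have hd0 : ((d : ℂ) - 1) ≠ 0 := by
    have : (d : ℂ) - 1 = ((d - 1 : ℕ) : ℂ) := by
      rw [Nat.cast_sub (by omega), Nat.cast_one]
    rw [this, Nat.cast_ne_zero]
    omega
  set a : Matrix (Fin n) (Fin n) (MvPolynomial (Fin n) ℂ) :=
    (C ((d : ℂ) - 1)⁻¹ : MvPolynomial (Fin n) ℂ) • Matrix.of fun i j => pderiv i (pderiv j f) with ha
  have h1 : a.det ∉ idl fun i => pderiv i f := by
    refine det_notMem (e := d - 1) _ (by omega) (fun i => hf.pderiv) hnd a ?_ ?_
    · intro i j
      rw [ha, Matrix.smul_apply, smul_eq_mul, Matrix.of_apply]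
      have := (hf.pderiv (i := j)).pderiv (i := i)
      have h2 := (isHomogeneous_C (Fin n) (((d : ℂ) - 1)⁻¹)).mul this
      rwa [zero_add] at h2
    · funext i
      rw [ha, smul_mulVec, Pi.smul_apply, smul_eq_mul]
      have h2 : ∑ j, X j * pderiv j (pderiv i f) = (d - 1) • pderiv i f :=
        (hf.pderiv (i := i)).sum_X_mul_pderiv
      have h3 : ((Matrix.of fun i j => pderiv i (pderiv j f)) *ᵥ X) i =
          ∑ j, X j * pderiv j (pderiv i f) := by
        rw [mulVec, dotProduct]
        refine Finset.sum_congr rfl fun j _ => ?_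
        rw [Matrix.of_apply, pderiv_pderiv_comm i j f, mul_comm]
      rw [h3, h2, nsmul_eq_mul, ← mul_assoc]
      have h4 : ((d - 1 : ℕ) : MvPolynomial (Fin n) ℂ) = C ((d : ℂ) - 1) := by
        rw [Nat.cast_sub (by omega), Nat.cast_one, map_sub, map_one, map_natCast]
      rw [h4, ← C_mul, inv_mul_cancel₀ hd0, C_1, one_mul]
  intro h
  apply h1
  rw [ha, det_smul, Fintype.card_fin, ← C_pow]
  exact Ideal.mul_mem_left _ _ h

theorem exists_mu (hd : 3 ≤ d) {f : MvPolynomial (Fin n) ℂ} (hf : f.IsHomogeneous d)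
    (hnd : Nondegenerate f) (y : MvPolynomial (Fin n) ℂ) (hy : y.IsHomogeneous (n * (d - 2))) :
    ∃ c : ℂ, y - C c * hess f ∈ jac f := by
  obtain ⟨x, hx, hreg⟩ := exists_seq (fun i => pderiv i f) hnd
  have hxh : ∀ i, (x i).IsHomogeneous (d - 1) := by
    intro i
    have h1 : Submodule.span ℂ (Set.range fun i => pderiv i f) ≤
        homogeneousSubmodule (Fin n) ℂ (d - 1) := by
      rw [Submodule.span_le]
      rintro _ ⟨j, rfl⟩
      exact hf.pderiv
    exact h1 (hx i)
  have hxj : ∀ k j, ∀ y ∈ W x k j, y ∈ jac f := by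
    intro k j y hy
    rw [mem_W] at hy
    have h1 : Ideal.span (x '' {i | i.val < k}) ≤ jac f := by
      rw [Ideal.span_le]
      rintro _ ⟨i, _, rfl⟩
      have h2 : Submodule.span ℂ (Set.range fun i => pderiv i f) ≤
          (jac f).restrictScalars ℂ := by
        rw [Submodule.span_le]
        rintro _ ⟨j, rfl⟩
        exact Ideal.subset_span ⟨j, rfl⟩
      exact h2 (hx i)
    exact h1 hy.2
  have hdeg : n * (d - 2) = n * ((d - 1) - 1) := by rw [Nat.sub_sub]
  have hfr := finrank_W x hxh hreg (by omega) n le_rfl (n * (d - 2))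
  rw [hdeg, cnt_top (d - 1) (by omega), ← hdeg, ← finrank_homog] at hfr
  have hhW : hess f ∉ W x n (n * (d - 2)) := fun h => hess_notMem hd hf hnd (hxj _ _ _ h)
  have hle : W x n (n * (d - 2)) ⊔ Submodule.span ℂ {hess f} ≤
      homogeneousSubmodule (Fin n) ℂ (n * (d - 2)) := by
    rw [sup_le_iff]
    refine ⟨inf_le_left, ?_⟩
    rw [Submodule.span_singleton_le_iff_mem]
    exact hess_isHomogeneous hf
  have h0 : hess f ≠ 0 := fun h => hhW (by rw [h]; exact Submodule.zero_mem _)
  have hinf : W x n (n * (d - 2)) ⊓ Submodule.span ℂ {hess f} = ⊥ := by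
    rw [eq_bot_iff]
    rintro z ⟨h1, h2⟩
    obtain ⟨c, rfl⟩ := Submodule.mem_span_singleton.1 h2
    by_cases hc : c = 0
    · rw [hc, zero_smul]; exact Submodule.zero_mem _
    · exact absurd ((Submodule.smul_mem_iff _ hc).1 h1) hhW
  have hfr2 := Submodule.finrank_sup_add_finrank_inf_eq (W x n (n * (d - 2)))
    (Submodule.span ℂ {hess f})
  rw [hinf, finrank_bot, add_zero, finrank_span_singleton h0, hfr] at hfr2
  have heq := Submodule.eq_of_le_of_finrank_eq hle hfr2
  have hy' : y ∈ W x n (n * (d - 2)) ⊔ Submodule.span ℂ {hess f} := by rw [heq]; exact hy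
  obtain ⟨w, hw, v, hv, rfl⟩ := Submodule.mem_sup.1 hy'
  obtain ⟨c, rfl⟩ := Submodule.mem_span_singleton.1 hv
  refine ⟨c, ?_⟩
  rw [smul_eq_C_mul, add_sub_cancel_right]
  exact hxj _ _ _ hw

theorem mu_unique (hd : 3 ≤ d) {f : MvPolynomial (Fin n) ℂ} (hf : f.IsHomogeneous d)
    (hnd : Nondegenerate f) (y : MvPolynomial (Fin n) ℂ) (c c' : ℂ)
    (h : y - C c * hess f ∈ jac f) (h' : y - C c' * hess f ∈ jac f) : c = c' := by
  by_contra hne
  have h1 := Ideal.sub_mem _ h' h
  have h2 : y - C c' * hess f - (y - C c * hess f) = C (c - c') * hess f := by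
    rw [C_sub]; ring
  rw [h2] at h1
  have h3 : hess f = C (c - c')⁻¹ * (C (c - c') * hess f) := by
    rw [← mul_assoc, ← C_mul, inv_mul_cancel₀ (sub_ne_zero.2 hne), C_1, one_mul]
  apply hess_notMem hd hf hnd
  rw [h3]
  exact Ideal.mul_mem_left _ _ h1

end Pool.Agent.K1H4.Disc
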