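import Pool.Agent.K1H4.Disc.Roots

set_option autoImplicit false

/-! # The denominators of the coefficients of the associated form -/

namespace Pool.Agent.K1H4.Disc

open MvPolynomial Matrix

variable {n d : ℕ}

theorem hrho (hn : 2 ≤ n) (hd : 3 ≤ d) : d - 1 ≤ n * (d - 2) := by
  have h1 : 2 * (d - 2) ≤ n * (d - 2) := Nat.mul_le_mul_right _ hn
  omega

/-- the determinants vanish at degenerate forms -/
theorem detH_degenerate (hn : 2 ≤ n) (hd : 3 ≤ d) (α₀ : Exps n (n * (d - 2)))
    (σ : Exps n (n * (d - 2)) → Idx n d)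
    {f : MvPolynomial (Fin n) ℂ} (hf : f.IsHomogeneous d) (hdeg : ¬ Nondegenerate f) :
    value (detH α₀ σ) f = 0 := by
  rw [Nondegenerate] at hdeg
  push Not at hdeg
  obtain ⟨z, hz, hz0⟩ := hdeg
  rw [value_detH _ _ hf, ← Matrix.exists_mulVec_eq_zero_iff]
  have hev : ∀ h : MvPolynomial (Fin n) ℂ, h.IsHomogeneous (n * (d - 2)) →
      ∑ α : Exps n (n * (d - 2)), coeff α.1 h * (∏ i, z i ^ α.1 i) = eval z h := by
    intro h hh
    conv_rhs => rw [← form_coeff hh, form, map_sum]
    refine Finset.sum_congr rfl fun α _ => ?_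
    rw [eval_monomial, Finsupp.prod_fintype _ _ (fun i => pow_zero _)]
  refine ⟨fun α => ∏ i, z i ^ α.1 i, ?_, ?_⟩
  · intro h0
    obtain ⟨j, hj⟩ : ∃ j, z j ≠ 0 := by
      by_contra! h
      exact hz0 (funext h)
    have h1 := congrFun h0 ⟨Finsupp.single j (n * (d - 2)), Finsupp.degree_single _ _⟩
    have h2 : ∏ i, z i ^ (Finsupp.single j (n * (d - 2))) i = z j ^ (n * (d - 2)) := by
      rw [Finset.prod_eq_single j]
      · rw [Finsupp.single_eq_same]
      · intro i _ hi
        rw [Finsupp.single_apply, if_neg (Ne.symm hi), pow_zero]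
      · intro h; exact absurd (Finset.mem_univ _) h
    have h3 : z j ^ (n * (d - 2)) = 0 := by rw [← h2]; exact h1
    exact hj (pow_eq_zero_iff (by have := hrho hn hd; omega) |>.1 h3)
  · funext γ
    rw [mulVec, dotProduct, Pi.zero_apply]
    by_cases hγ : γ = α₀
    · have : ∀ α, mat f (hess f) α₀ σ γ α = coeff α.1 (hess f) := fun α => by
        rw [mat, Matrix.of_apply, if_pos hγ]
      simp only [this]
      rw [hev _ (hess_isHomogeneous hf), hess, RingHom.map_det, ← Matrix.exists_mulVec_eq_zero_iff]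
      refine ⟨z, hz0, ?_⟩
      funext i
      rw [mulVec, dotProduct, Pi.zero_apply]
      have h2 : ∑ j, X j * pderiv j (pderiv i f) = (d - 1) • pderiv i f :=
        (hf.pderiv (i := i)).sum_X_mul_pderiv
      have h3 := congrArg (eval z) h2
      rw [map_sum, map_nsmul, hz i, smul_zero] at h3
      rw [← h3]
      refine Finset.sum_congr rfl fun j _ => ?_
      rw [RingHom.mapMatrix_apply, Matrix.map_apply, Matrix.of_apply, eval_mul, eval_X,
        pderiv_pderiv_comm, mul_comm]
    · have : ∀ α, mat f (hess f) α₀ σ γ α = coeff α.1 (rowP f (σ γ)) := fun α => by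
        rw [mat, Matrix.of_apply, if_neg hγ]
      simp only [this]
      rw [hev _ (rowP_isHomogeneous (hrho hn hd) hf _), rowP, eval_mul, hz, mul_zero]

theorem detH_top_ne_zero (hd : 3 ≤ d) (i₀ : Fin n) : detH (top n d) (sig i₀) ≠ 0 := by
  intro h
  have h1 := det_fer_ne_zero hd i₀
  rw [← value_detH _ _ (fam_isHomogeneous (by omega) _ _ _), h] at h1
  exact h1 (map_zero _)

/-- polynomial functions are determined by their values at nondegenerate forms -/
theorem value_ext_nondeg (hn : 2 ≤ n) (hd : 3 ≤ d) (P Q : PolyFun n d)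
    (h : ∀ f : MvPolynomial (Fin n) ℂ, f.IsHomogeneous d → Nondegenerate f →
      value P f = value Q f) : P = Q := by
  have h0 := detH_top_ne_zero hd (⟨0, by omega⟩ : Fin n)
  apply mul_right_cancel₀ h0
  apply value_ext
  intro f hf
  rw [value_mul, value_mul]
  by_cases hnd : Nondegenerate f
  · rw [h f hf hnd]
  · rw [detH_degenerate hn hd _ _ hf hnd, mul_zero, mul_zero]

/-- the scalar -/
theorem exists_frac (hn : 2 ≤ n) (hd : 3 ≤ d) (i : Exps n (n * (d - 2))) :
    ∃ a b : PolyFun n d, (∀ α₀ σ, b ∣ detH α₀ σ) ∧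
      ∀ f : MvPolynomial (Fin n) ℂ, f.IsHomogeneous d → Nondegenerate f → ∀ μ : ℂ,
        monomial i.1 1 - C μ * hess f ∈ jac f → value a f = μ * value b f := by
  have hρ := hrho hn hd
  have h0 := detH_top_ne_zero hd (⟨0, by omega⟩ : Fin n)
  set D := detH (top n d) (sig (⟨0, by omega⟩ : Fin n)) with hD
  set N := detM (top n d) (sig (⟨0, by omega⟩ : Fin n)) i with hN
  obtain ⟨b, a, c, hrel, hb, ha⟩ := UniqueFactorizationMonoid.exists_reduced_factors D h0 N
  have hc0 : c ≠ 0 := fun h => h0 (by rw [← hb, h, zero_mul])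
  have hrep : ∀ f : MvPolynomial (Fin n) ℂ, f.IsHomogeneous d → Nondegenerate f → ∀ μ : ℂ,
      monomial i.1 1 - C μ * hess f ∈ jac f → ∀ α₀ σ,
      value (detM α₀ σ i) f = μ * value (detH α₀ σ) f := by
    intro f hf hnd μ hμ α₀ σ
    rw [value_detH _ _ hf, value_detM _ _ _ hf]
    exact det_mat_eq hd hρ hf hnd _ (isHomogeneous_monomial _ i.2) μ hμ α₀ σ
  have hcross : ∀ α₀ σ, detM α₀ σ i * b = a * detH α₀ σ := by
    intro α₀ σ
    apply mul_left_cancel₀ hc0
    have h1 : detM α₀ σ i * D = N * detH α₀ σ := by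
      apply value_ext_nondeg hn hd
      intro f hf hnd
      obtain ⟨μ, hμ⟩ := exists_mu hd hf hnd (monomial i.1 1) (isHomogeneous_monomial _ i.2)
      rw [value_mul, value_mul, hrep f hf hnd μ hμ, hD, hN, hrep f hf hnd μ hμ]
      ring
    rw [← hb, ← ha] at h1
    linear_combination h1
  refine ⟨a, b, fun α₀ σ => ?_, ?_⟩
  · have h1 : b ∣ a * detH α₀ σ := ⟨detM α₀ σ i, by rw [← hcross]; ring⟩
    exact hrel.dvd_of_dvd_mul_left h1
  · intro f hf hnd μ hμ
    obtain ⟨α₀, σ, hne⟩ := exists_det_ne_zero (by omega) hd hρ hf hnd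
    rw [← value_detH _ _ hf] at hne
    have h1 := congrArg (fun P => value P f) (hcross α₀ σ)
    simp only [value_mul] at h1
    rw [hrep f hf hnd μ hμ] at h1
    apply mul_right_cancel₀ hne
    linear_combination -h1

/-- if `b` divides all determinants then it vanishes only at degenerate forms -/
theorem degenerate_of_dvd (hn : 2 ≤ n) (hd : 3 ≤ d) (b : PolyFun n d)
    (hb : ∀ α₀ σ, b ∣ detH α₀ σ)
    (f : MvPolynomial (Fin n) ℂ) (hf : f.IsHomogeneous d) (h : value b f = 0) :
    ¬ Nondegenerate f := by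
  intro hnd
  obtain ⟨α₀, σ, hne⟩ := exists_det_ne_zero (by omega) hd (hrho hn hd) hf hnd
  rw [← value_detH _ _ hf] at hne
  obtain ⟨q, hq⟩ := hb α₀ σ
  rw [hq, value_mul, h, zero_mul] at hne
  exact hne rfl

/-- Hilbert's Nullstellensatz for an irreducible hypersurface -/
theorem dvd_of_vanish {τ : Type} [Finite τ] (p q : MvPolynomial τ ℂ) (hp : Irreducible p)
    (h : ∀ x : τ → ℂ, eval x p = 0 → eval x q = 0) : p ∣ q := by
  have h1 : q ∈ (Ideal.span {p}).radical := by
    rw [← vanishingIdeal_zeroLocus_eq_radical (K := ℂ), mem_vanishingIdeal_iff]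
    intro x hx
    have := (mem_zeroLocus_iff.1 hx) p (Ideal.subset_span rfl)
    rw [aeval_eq_eval] at this ⊢
    exact h x this
  obtain ⟨k, hk⟩ := h1
  rw [Ideal.mem_span_singleton] at hk
  exact hp.prime.dvd_of_dvd_pow hk

theorem dvd_of_value (p q : PolyFun n d) (hp : Irreducible p)
    (h : ∀ f : MvPolynomial (Fin n) ℂ, f.IsHomogeneous d → value p f = 0 → value q f = 0) :
    p ∣ q := by
  refine dvd_of_vanish p q hp fun x hx => ?_
  have := h (form x) (form_isHomogeneous x)
  rw [value_form, value_form] at this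
  exact this hx

/-- a divisor of a polynomial -/
theorem dvd_of_only_prime {A : Type*} [CommRing A] [IsDomain A] [UniqueFactorizationMonoid A]
    (b Δ : A) (hb : b ≠ 0) (h1 : ∀ p, Irreducible p → p ∣ b → Associated p Δ)
    (h2 : ¬ Δ ^ 2 ∣ b) : b ∣ Δ := by
  by_cases hu : IsUnit b
  · exact hu.dvd
  · obtain ⟨p, hp, hpb⟩ := WfDvdMonoid.exists_irreducible_factor hu hb
    have hΔb : Δ ∣ b := (h1 p hp hpb).symm.dvd.trans hpb
    obtain ⟨b1, rfl⟩ := hΔb
    by_cases hu1 : IsUnit b1
    · exact (associated_mul_unit_left Δ b1 hu1).dvd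
    · have hb1 : b1 ≠ 0 := right_ne_zero_of_mul hb
      obtain ⟨p1, hp1, hpb1⟩ := WfDvdMonoid.exists_irreducible_factor hu1 hb1
      have h3 := (h1 p1 hp1 (hpb1.mul_left _)).symm.dvd.trans hpb1
      exact absurd (by rw [pow_two]; exact mul_dvd_mul_left _ h3) h2

/-- **Upper bound.** -/
theorem upper (hn : 2 ≤ n) (hd : 3 ≤ d) (Δ : PolyFun n d) (hΔ : IsDiscriminant n d Δ)
    (i : Exps n (n * (d - 2))) :
    ∃ P : PolyFun n d, ∀ f : MvPolynomial (Fin n) ℂ, f.IsHomogeneous d → Nondegenerate f →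
      ∀ μ : ℂ, monomial i.1 1 - C μ * hess f ∈ jac f → value P f = value Δ f * μ := by
  obtain ⟨a, b, hb, hab⟩ := exists_frac hn hd i
  have h0 := detH_top_ne_zero hd (⟨0, by omega⟩ : Fin n)
  have hb0 : b ≠ 0 := by
    rintro rfl
    exact h0 (zero_dvd_iff.1 (hb _ _))
  have hbΔ : b ∣ Δ := by
    refine dvd_of_only_prime b Δ hb0 ?_ fun h => sq_not_dvd hd (⟨0, by omega⟩ : Fin n) Δ
      hΔ.value_eq_zero_iff (h.trans (hb _ _))
    intro p hp hpb
    have h1 : p ∣ Δ := by
      refine dvd_of_value p Δ hp fun f hf hpf => ?_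
      rw [hΔ.value_eq_zero_iff f hf]
      refine degenerate_of_dvd hn hd b hb f hf ?_
      obtain ⟨q, rfl⟩ := hpb
      rw [value_mul, hpf, zero_mul]
    exact hp.associated_of_dvd hΔ.irreducible h1
  obtain ⟨q, hq⟩ := hbΔ
  refine ⟨a * q, fun f hf hnd μ hμ => ?_⟩
  rw [hq, value_mul, value_mul, hab f hf hnd μ hμ]
  ring

/-- **Lower bound.** The scalars are not all polynomial. -/
theorem lower (hn : 2 ≤ n) (hd : 3 ≤ d) (P : Exps n (n * (d - 2)) → PolyFun n d)
    (hP : ∀ i, ∀ f : MvPolynomial (Fin n) ℂ, f.IsHomogeneous d → Nondegenerate f →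
      ∀ μ : ℂ, monomial i.1 1 - C μ * hess f ∈ jac f → value (P i) f = μ) : False := by
  set f := fam d (⟨0, by omega⟩ : Fin n) (0 : Fin n → ℂ) 1 with hfdef
  have hf : f.IsHomogeneous d := fam_isHomogeneous (by omega) _ _ _
  have hnd : Nondegenerate f := fer_nondegenerate hd _
  have hpd : ∀ (c : ℂ) (j : Fin n), pderiv j (C c * f) = C c * pderiv j f :=
    fun c j => pderiv_C_mul
  have hhess : ∀ c : ℂ, hess (C c * f) = C (c ^ n) * hess f := by
    intro c
    rw [hess, hess]
    have : (Matrix.of fun i j => pderiv i (pderiv j (C c * f))) =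
        (C c : MvPolynomial (Fin n) ℂ) • Matrix.of fun i j => pderiv i (pderiv j f) := by
      ext1 i j
      rw [Matrix.of_apply, Matrix.smul_apply, Matrix.of_apply, hpd, pderiv_C_mul, smul_eq_mul]
    rw [this, det_smul, Fintype.card_fin, ← C_pow]
  have hjac : ∀ c : ℂ, c ≠ 0 → jac (C c * f) = jac f := by
    intro c hc
    apply le_antisymm
    · rw [jac, Ideal.span_le]
      rintro _ ⟨j, rfl⟩
      show pderiv j (C c * f) ∈ jac f
      rw [hpd]
      exact Ideal.mul_mem_left _ _ (Ideal.subset_span ⟨j, rfl⟩)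
    · rw [jac, Ideal.span_le]
      rintro _ ⟨j, rfl⟩
      show pderiv j f ∈ jac (C c * f)
      have : pderiv j f = C c⁻¹ * pderiv j (C c * f) := by
        rw [hpd, ← mul_assoc, ← C_mul, inv_mul_cancel₀ hc, C_1, one_mul]
      rw [this]
      exact Ideal.mul_mem_left _ _ (Ideal.subset_span ⟨j, rfl⟩)
  have hzero : ∀ i, value (P i) f = 0 := by
    intro i
    -- the polynomial `c ↦ c ^ n * P (c f)`
    obtain ⟨μ, hμ⟩ := exists_mu hd hf hnd (monomial i.1 1) (isHomogeneous_monomial _ i.2)
    set F : MvPolynomial (Fin n) (Polynomial ℂ) :=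
      C Polynomial.X * MvPolynomial.map Polynomial.C f with hF
    have hFe : ∀ c : ℂ, MvPolynomial.map (Polynomial.evalRingHom c) F = C c * f := by
      intro c
      rw [hF, map_mul, map_C, MvPolynomial.map_map]
      have : (Polynomial.evalRingHom c).comp Polynomial.C = RingHom.id ℂ := by
        ext x; simp
      rw [this, MvPolynomial.map_id]
      simp
    have h1 : ∀ c : ℂ, c ≠ 0 → c ^ n * (restr F (P i)).eval c = μ := by
      intro c hc
      rw [eval_restr, hFe]
      have hfc : (C c * f).IsHomogeneous d := by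
        have := (isHomogeneous_C (Fin n) c).mul hf
        rwa [zero_add] at this
      have hndc : Nondegenerate (C c * f) := by
        intro z hz
        refine hnd z fun j => ?_
        have := hz j
        rw [hpd, eval_mul, eval_C] at this
        exact (mul_eq_zero.1 this).resolve_left hc
      have h2 : monomial i.1 1 - C (μ * (c ^ n)⁻¹) * hess (C c * f) ∈ jac (C c * f) := by
        rw [hjac c hc, hhess, ← mul_assoc, ← C_mul, mul_assoc,
          inv_mul_cancel₀ (pow_ne_zero _ hc), mul_one]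
        exact hμ
      rw [hP i _ hfc hndc _ h2, mul_comm, mul_assoc, inv_mul_cancel₀ (pow_ne_zero _ hc), mul_one]
    have h2 : (Polynomial.X ^ n * restr F (P i) - Polynomial.C μ) * Polynomial.X = 0 := by
      apply Polynomial.funext
      intro c
      rw [Polynomial.eval_mul, Polynomial.eval_X, Polynomial.eval_zero]
      by_cases hc : c = 0
      · rw [hc, mul_zero]
      · rw [Polynomial.eval_sub, Polynomial.eval_mul, Polynomial.eval_pow, Polynomial.eval_X,
          Polynomial.eval_C, h1 c hc, sub_self, zero_mul]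
    have h3 := (mul_eq_zero.1 h2).resolve_right Polynomial.X_ne_zero
    have h4 := congrArg (Polynomial.eval 0) h3
    rw [Polynomial.eval_sub, Polynomial.eval_mul, Polynomial.eval_pow, Polynomial.eval_X,
      zero_pow (by omega), zero_mul, zero_sub, Polynomial.eval_C, Polynomial.eval_zero,
      neg_eq_zero] at h4
    rw [hP i f hf hnd μ hμ, h4]
  apply hess_notMem hd hf hnd
  rw [← form_coeff (hess_isHomogeneous hf), form]
  refine Ideal.sum_mem _ fun i _ => ?_
  obtain ⟨μ, hμ⟩ := exists_mu hd hf hnd (monomial i.1 1) (isHomogeneous_monomial _ i.2)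
  have h1 : μ = 0 := by rw [← hP i f hf hnd μ hμ]; exact hzero i
  rw [h1, C_0, zero_mul, sub_zero] at hμ
  have h2 : monomial i.1 (coeff i.1 (hess f)) = C (coeff i.1 (hess f)) * monomial i.1 1 := by
    rw [C_mul_monomial, mul_one]
  rw [h2]
  exact Ideal.mul_mem_left _ _ hμ

end Pool.Agent.K1H4.Disc
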