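import Mathlib

set_option autoImplicit false

/-! # Determinants of presentation matrices

If `a z = a' z` for two square matrices over a polynomial ring, where `z` is the vector of the
variables, then `det a - det a'` lies in the ideal generated by the entries of `a z`. -/

namespace Pool.Agent.K1H4.Disc

open MvPolynomial Matrix

section ring

variable {A : Type*} [CommRing A] {ι : Type*} [Fintype ι] [DecidableEq ι]

/-- the ideal generated by the entries of a vector -/
def idl (f : ι → A) : Ideal A := Ideal.span (Set.range f)

omit [Fintype ι] [DecidableEq ι] in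
theorem mem_idl (f : ι → A) (i : ι) : f i ∈ idl f := Ideal.subset_span ⟨i, rfl⟩

theorem det_koszul_mem (a : Matrix ι ι A) (z : ι → A) (i j k : ι) :
    (a.updateRow i (z j • Pi.single k 1 - z k • Pi.single j 1)).det ∈ idl (a *ᵥ z) := by
  have h1 : (a.updateRow i (z j • Pi.single k 1 - z k • Pi.single j 1)).det =
      z j * (a.updateRow i (Pi.single k 1)).det - z k * (a.updateRow i (Pi.single j 1)).det := by
    rw [sub_eq_add_neg, det_updateRow_add, det_updateRow_smul, ← neg_smul, det_updateRow_smul]
    ring
  set a1 := a.updateRow i (Pi.single k (1 : A)) with ha1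
  have h2 : (a1.adjugate *ᵥ (a1 *ᵥ z)) j = a1.det * z j := by
    rw [mulVec_mulVec, adjugate_mul, smul_mulVec, one_mulVec]
    rfl
  have h3 : ∀ l, (a1 *ᵥ z) l = if l = i then z k else (a *ᵥ z) l := by
    intro l
    by_cases hl : l = i
    · subst hl
      rw [if_pos rfl, mulVec, ha1, updateRow_self]
      exact single_one_dotProduct k z
    · simp [ha1, mulVec, dotProduct, hl]
  have h4 : a1.adjugate j i = (a.updateRow i (Pi.single j 1)).det := by
    rw [adjugate_apply, ha1, updateRow_idem]
  have h5 : (a1.adjugate *ᵥ (a1 *ᵥ z)) j =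
      a1.adjugate j i * z k + ∑ l ∈ Finset.univ.erase i, a1.adjugate j l * (a *ᵥ z) l := by
    rw [mulVec, dotProduct, ← Finset.add_sum_erase _ _ (Finset.mem_univ i), h3, if_pos rfl]
    congr 1
    refine Finset.sum_congr rfl fun l hl => ?_
    rw [h3, if_neg (Finset.ne_of_mem_erase hl)]
  have h6 : (a.updateRow i (z j • Pi.single k 1 - z k • Pi.single j 1)).det =
      ∑ l ∈ Finset.univ.erase i, a1.adjugate j l * (a *ᵥ z) l := by
    rw [h1, ← h4]
    have := h5.symm.trans h2
    linear_combination -this
  rw [h6]
  exact Ideal.sum_mem _ fun l _ => Ideal.mul_mem_left _ _ (mem_idl _ l)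

end ring

section poly

variable {B : Type*} [CommRing B] [Algebra ℚ B] {n : ℕ}

omit [Algebra ℚ B] in
/-- a homogeneous syzygy of the variables is a Koszul syzygy -/
theorem syzygy (r : Fin n → MvPolynomial (Fin n) B) (p : ℕ) (hr : ∀ j, (r j).IsHomogeneous p)
    (h0 : ∑ j, r j * X j = 0) (j : Fin n) :
    ((p : MvPolynomial (Fin n) B) + 1) * r j = ∑ k, (pderiv k (r j) - pderiv j (r k)) * X k := by
  have h1 : ∑ k, X k * pderiv k (r j) = p • r j := (hr j).sum_X_mul_pderiv
  have h2 : pderiv j (∑ k, r k * X k) = ∑ k, pderiv j (r k) * X k + r j := by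
    rw [map_sum]
    have : ∀ k, pderiv j (r k * X k) = pderiv j (r k) * X k + r k * (if k = j then 1 else 0) := by
      intro k
      rw [Derivation.leibniz, smul_eq_mul, smul_eq_mul]
      by_cases hk : k = j
      · subst hk; rw [pderiv_X_self, if_pos rfl]; ring
      · rw [pderiv_X_of_ne hk, if_neg hk]; ring
    rw [Finset.sum_congr rfl fun k _ => this k, Finset.sum_add_distrib]
    congr 1
    simp
  rw [h0, map_zero] at h2
  have h3 : ∑ k, (pderiv k (r j) - pderiv j (r k)) * X k =
      ∑ k, X k * pderiv k (r j) - ∑ k, pderiv j (r k) * X k := by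
    rw [← Finset.sum_sub_distrib]
    exact Finset.sum_congr rfl fun k _ => by ring
  rw [h3, h1, nsmul_eq_mul]
  linear_combination -h2

theorem det_updateRow_syzygy (a : Matrix (Fin n) (Fin n) (MvPolynomial (Fin n) B)) (i : Fin n)
    (r : Fin n → MvPolynomial (Fin n) B) (p : ℕ) (hr : ∀ j, (r j).IsHomogeneous p)
    (h0 : ∑ j, r j * X j = 0) : (a.updateRow i r).det ∈ idl (a *ᵥ X) := by
  -- `2 (p+1) r` is a combination of Koszul relations
  set s : Fin n → Fin n → MvPolynomial (Fin n) B := fun j k => pderiv k (r j) - pderiv j (r k)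
    with hs
  have h1 : (2 * ((p : MvPolynomial (Fin n) B) + 1)) • r =
      ∑ j, ∑ k, s j k • ((X k : MvPolynomial (Fin n) B) • (Pi.single j 1 : Fin n → MvPolynomial (Fin n) B) -
        (X j : MvPolynomial (Fin n) B) • (Pi.single k 1 : Fin n → MvPolynomial (Fin n) B)) := by
    have h2 : ∑ j, ∑ k, s j k • ((X k : MvPolynomial (Fin n) B) • (Pi.single j 1 : Fin n → MvPolynomial (Fin n) B)) =
        ((p : MvPolynomial (Fin n) B) + 1) • r := by
      funext m
      rw [Finset.sum_apply]
      simp only [Finset.sum_apply, Pi.smul_apply, smul_eq_mul, Pi.single_apply, mul_ite, mul_one,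
        mul_zero]
      rw [Finset.sum_comm]
      simp only [Finset.sum_ite_eq, Finset.mem_univ, if_true]
      rw [syzygy r p hr h0 m]
    have h3 : ∑ j, ∑ k, s j k • ((X j : MvPolynomial (Fin n) B) • (Pi.single k 1 : Fin n → MvPolynomial (Fin n) B)) =
        -(((p : MvPolynomial (Fin n) B) + 1) • r) := by
      rw [← h2, Finset.sum_comm, ← Finset.sum_neg_distrib]
      refine Finset.sum_congr rfl fun j _ => ?_
      rw [← Finset.sum_neg_distrib]
      refine Finset.sum_congr rfl fun k _ => ?_
      rw [hs, ← neg_smul]
      congr 1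
      ring
    simp only [smul_sub, Finset.sum_sub_distrib]
    rw [h2, h3, sub_neg_eq_add, ← two_smul (MvPolynomial (Fin n) B), smul_smul]
  have h4 : (2 * ((p : MvPolynomial (Fin n) B) + 1)) * (a.updateRow i r).det ∈ idl (a *ᵥ X) := by
    rw [← det_updateRow_smul, h1]
    have hlin : ∀ (v : Fin n → Fin n → Fin n → MvPolynomial (Fin n) B),
        (∀ j k, (a.updateRow i (v j k)).det ∈ idl (a *ᵥ X)) →
        (a.updateRow i (∑ j, ∑ k, v j k)).det ∈ idl (a *ᵥ X) := by
      intro v hv
      let φ : (Fin n → MvPolynomial (Fin n) B) →ₗ[MvPolynomial (Fin n) B]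
          MvPolynomial (Fin n) B :=
        { toFun := fun w => (a.updateRow i w).det
          map_add' := fun x y => det_updateRow_add a i x y
          map_smul' := fun c x => det_updateRow_smul a i c x }
      show φ (∑ j, ∑ k, v j k) ∈ _
      rw [map_sum]
      refine Ideal.sum_mem _ fun j _ => ?_
      rw [map_sum]
      exact Ideal.sum_mem _ fun k _ => hv j k
    refine hlin _ fun j k => ?_
    rw [det_updateRow_smul]
    exact Ideal.mul_mem_left _ _ (det_koszul_mem a X i k j)
  have hu : IsUnit (2 * ((p : MvPolynomial (Fin n) B) + 1)) := by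
    have e : (2 * ((p : MvPolynomial (Fin n) B) + 1)) =
        algebraMap ℚ (MvPolynomial (Fin n) B) (2 * (p + 1)) := by
      rw [map_mul, map_add, map_one, map_natCast, map_ofNat]
    rw [e]
    refine IsUnit.map _ (isUnit_iff_ne_zero.2 ?_)
    positivity
  exact (Ideal.unit_mul_mem_iff_mem _ hu).1 h4

/-- **Comparison of determinants.** -/
theorem det_sub_det_mem (a a' : Matrix (Fin n) (Fin n) (MvPolynomial (Fin n) B)) (p : ℕ)
    (ha : ∀ i j, (a i j).IsHomogeneous p) (ha' : ∀ i j, (a' i j).IsHomogeneous p)
    (h : a *ᵥ X = a' *ᵥ X) : a.det - a'.det ∈ idl (a *ᵥ X) := by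
  -- matrices with the rows in `S` from `a`
  have key : ∀ S : Finset (Fin n), (Matrix.of fun i => if i ∈ S then a i else a' i).det - a'.det ∈
      idl (a *ᵥ X) := by
    intro S
    induction S using Finset.induction_on with
    | empty =>
      have : (Matrix.of fun i => if i ∈ (∅ : Finset (Fin n)) then a i else a' i) = a' := by
        ext i j
        simp
      rw [this, sub_self]
      exact Ideal.zero_mem _
    | insert i S hi ih =>
      set b : Matrix (Fin n) (Fin n) (MvPolynomial (Fin n) B) :=
        Matrix.of fun i => if i ∈ S then a i else a' i with hb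
      have h1 : (Matrix.of fun l => if l ∈ insert i S then a l else a' l) =
          b.updateRow i (a' i + (a i - a' i)) := by
        ext l m
        by_cases hl : l = i
        · subst hl
          simp
        · simp [hb, hl]
      have h2 : b.updateRow i (a' i) = b := by
        ext l m
        by_cases hl : l = i
        · subst hl
          simp [hb, hi]
        · simp [hl]
      have h3 : b *ᵥ X = a *ᵥ X := by
        funext l
        by_cases hl : l ∈ S
        · simp [hb, mulVec, dotProduct, hl]
        · have := congrFun h l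
          simp only [mulVec, dotProduct] at this
          simp [hb, mulVec, dotProduct, hl, this]
      rw [h1, det_updateRow_add, h2]
      have h4 := det_updateRow_syzygy b i (a i - a' i) p (fun j => (ha i j).sub (ha' i j)) (by
        have := congrFun h i
        simp only [mulVec, dotProduct] at this
        simp only [Pi.sub_apply, sub_mul, Finset.sum_sub_distrib]
        rw [this, sub_self])
      rw [h3] at h4
      have : b.det + (b.updateRow i (a i - a' i)).det - a'.det =
        (b.det - a'.det) + (b.updateRow i (a i - a' i)).det := by ring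
      rw [this]
      exact Ideal.add_mem _ ih h4
  have := key Finset.univ
  have e : (Matrix.of fun i => if i ∈ (Finset.univ : Finset (Fin n)) then a i else a' i) = a := by
    ext i j
    simp
  rwa [e] at this

end poly

end Pool.Agent.K1H4.Disc
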